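import Mathlib
import Pool.Agent.H438R2.DL.WSum
import Pool.Agent.H438R2.DL.Four

/-!
Sums of `m ^ (i t)` over the multiples of `d` in a residue class.
-/

set_option autoImplicit false

open Finset

namespace Pool.Agent.W5h75.SU

open Pool.Agent.H469R2.NK (e norm_e e_add e_zero conj_e)
open Pool.Agent.H438R2.DL (e_sub_one W_bound)

theorem count_class (N j Q a : ℕ) (hQ : 0 < Q) (hNj : N ≤ j) :
    |(((Ico N j).filter (fun m => m ≡ a [MOD Q])).card : ℝ) - ((j : ℝ) - N) / Q| ≤ 1 := by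
  have h := Nat.Ico_filter_modEq_card N j hQ a
  have hQr : (0 : ℝ) < Q := by exact_mod_cast hQ
  have h1 : (⌈((N : ℚ) - a) / Q⌉ : ℤ) ≤ ⌈((j : ℚ) - a) / Q⌉ := by
    apply Int.ceil_le_ceil
    have : (N : ℚ) ≤ j := by exact_mod_cast hNj
    have hQ' : (0 : ℚ) < Q := by exact_mod_cast hQ
    gcongr
  rw [max_eq_left (by linarith)] at h
  have h2 : (((Ico N j).filter (fun m => m ≡ a [MOD Q])).card : ℝ) =
      (⌈((j : ℚ) - a) / Q⌉ : ℤ) - (⌈((N : ℚ) - a) / Q⌉ : ℤ) := by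
    have := congrArg (Int.cast : ℤ → ℝ) h
    push_cast at this
    exact this
  have c1 := Int.le_ceil (((j : ℚ) - a) / Q)
  have c2 := Int.ceil_lt_add_one (((j : ℚ) - a) / Q)
  have c3 := Int.le_ceil (((N : ℚ) - a) / Q)
  have c4 := Int.ceil_lt_add_one (((N : ℚ) - a) / Q)
  have d1 : ((j : ℝ) - a) / Q ≤ (⌈((j : ℚ) - a) / Q⌉ : ℤ) := by
    have := (Rat.cast_le (K := ℝ)).2 c1
    push_cast at this
    exact this
  have d2 : ((⌈((j : ℚ) - a) / Q⌉ : ℤ) : ℝ) < ((j : ℝ) - a) / Q + 1 := by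
    have := (Rat.cast_lt (K := ℝ)).2 c2
    push_cast at this
    exact this
  have d3 : ((N : ℝ) - a) / Q ≤ (⌈((N : ℚ) - a) / Q⌉ : ℤ) := by
    have := (Rat.cast_le (K := ℝ)).2 c3
    push_cast at this
    exact this
  have d4 : ((⌈((N : ℚ) - a) / Q⌉ : ℤ) : ℝ) < ((N : ℝ) - a) / Q + 1 := by
    have := (Rat.cast_lt (K := ℝ)).2 c4
    push_cast at this
    exact this
  have e1 : ((j : ℝ) - a) / Q - ((N : ℝ) - a) / Q = ((j : ℝ) - N) / Q := by ring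
  rw [h2, abs_le]
  constructor <;> linarith

/-- summation by parts -/
theorem abel_eq (N : ℕ) (c : ℕ → ℝ) (h : ℕ → ℂ) (M : ℕ) (hM : N ≤ M) :
    ∑ m ∈ Ico N M, (c m : ℂ) * h m = ((∑ m ∈ Ico N M, c m : ℝ) : ℂ) * h M -
      ∑ m ∈ Ico N M, ((∑ i ∈ Ico N (m + 1), c i : ℝ) : ℂ) * (h (m + 1) - h m) := by
  induction M, hM using Nat.le_induction with
  | base => simp
  | succ M hM ih =>
    rw [sum_Ico_succ_top hM, ih, sum_Ico_succ_top hM, sum_Ico_succ_top hM, sum_Ico_succ_top hM]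
    push_cast
    ring

theorem abel_le (N M : ℕ) (hM : N ≤ M) (c : ℕ → ℝ) (h : ℕ → ℂ) (B : ℝ)
    (hc : ∀ j, N ≤ j → |∑ m ∈ Ico N j, c m| ≤ B) :
    ‖∑ m ∈ Ico N M, (c m : ℂ) * h m‖ ≤ B * (‖h M‖ + ∑ m ∈ Ico N M, ‖h (m + 1) - h m‖) := by
  rw [abel_eq N c h M hM, mul_add, mul_sum]
  refine (norm_sub_le _ _).trans (add_le_add ?_ ?_)
  · rw [norm_mul, Complex.norm_real]
    exact mul_le_mul_of_nonneg_right (hc M hM) (norm_nonneg _)
  · refine (norm_sum_le _ _).trans (sum_le_sum fun m hm => ?_)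
    rw [norm_mul, Complex.norm_real]
    exact mul_le_mul_of_nonneg_right (hc (m + 1) (by have := (mem_Ico.1 hm).1; omega))
      (norm_nonneg _)

theorem e_diff (x y : ℝ) : ‖e x - e y‖ ≤ 2 * Real.pi * |x - y| := by
  have h : e x - e y = e y * (e (x - y) - 1) := by
    rw [mul_sub, ← e_add, mul_one]
    congr 2
    ring
  rw [h, norm_mul, norm_e, one_mul]
  exact e_sub_one _

theorem e_log_var (N M : ℕ) (hN : 1 ≤ N) (hM : N ≤ M) (ξ : ℝ) :
    ∑ m ∈ Ico N M, ‖e (Real.log ((m + 1 : ℕ) : ℝ) * ξ) - e (Real.log (m : ℝ) * ξ)‖ ≤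
      2 * Real.pi * |ξ| * (Real.log M - Real.log N) := by
  induction M, hM using Nat.le_induction with
  | base => simp
  | succ M hM ih =>
    rw [sum_Ico_succ_top hM]
    have h1 := e_diff (Real.log ((M + 1 : ℕ) : ℝ) * ξ) (Real.log (M : ℝ) * ξ)
    have h2 : Real.log ((M + 1 : ℕ) : ℝ) * ξ - Real.log (M : ℝ) * ξ =
        (Real.log ((M + 1 : ℕ) : ℝ) - Real.log (M : ℝ)) * ξ := by ring
    have h3 : 0 ≤ Real.log ((M + 1 : ℕ) : ℝ) - Real.log (M : ℝ) := by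
      have hM0 : (0 : ℝ) < M := by exact_mod_cast (by omega : 0 < M)
      have := Real.log_le_log hM0 (by push_cast; linarith : (M : ℝ) ≤ ((M + 1 : ℕ) : ℝ))
      linarith
    rw [h2, abs_mul, abs_of_nonneg h3] at h1
    nlinarith

/-- multiples of `d` in the class `1 mod q` are equidistributed for slowly varying weights -/
theorem slow (q d N : ℕ) (hq : 0 < q) (hd : 0 < d) (hqd : Nat.Coprime q d) (hN : 1 ≤ N) (ξ : ℝ) :
    ‖∑ m ∈ (Ico N (64 * N)).filter (fun m => m ≡ 1 [MOD q] ∧ d ∣ m), e (Real.log (m : ℝ) * ξ) -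
      (1 / (d : ℂ)) * ∑ m ∈ (Ico N (64 * N)).filter (fun m => m ≡ 1 [MOD q]),
        e (Real.log (m : ℝ) * ξ)‖ ≤ 2 * (1 + 2 * Real.pi * |ξ| * Real.log 64) := by
  classical
  have hdr : (1 : ℝ) ≤ d := by exact_mod_cast hd
  set c : ℕ → ℝ := fun m => (if m ≡ 1 [MOD q] ∧ d ∣ m then 1 else 0) -
    (1 / (d : ℝ)) * (if m ≡ 1 [MOD q] then 1 else 0) with hc
  obtain ⟨a, ha1, ha2⟩ := Nat.chineseRemainder hqd 1 0
  have hclass : ∀ m : ℕ, (m ≡ 1 [MOD q] ∧ d ∣ m) ↔ m ≡ a [MOD q * d] := by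
    intro m
    rw [← Nat.modEq_and_modEq_iff_modEq_mul hqd]
    constructor
    · rintro ⟨h1, h2⟩
      exact ⟨h1.trans ha1.symm, ((Nat.modEq_zero_iff_dvd.2 h2)).trans ha2.symm⟩
    · rintro ⟨h1, h2⟩
      exact ⟨h1.trans ha1, Nat.modEq_zero_iff_dvd.1 (h2.trans ha2)⟩
  have hpart : ∀ j, N ≤ j → |∑ m ∈ Ico N j, c m| ≤ 2 := by
    intro j hj
    have e1 : ∑ m ∈ Ico N j, c m = (((Ico N j).filter (fun m => m ≡ a [MOD q * d])).card : ℝ) -
        (1 / (d : ℝ)) * (((Ico N j).filter (fun m => m ≡ 1 [MOD q])).card : ℝ) := by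
      simp only [hc, hclass]
      rw [sum_sub_distrib, ← mul_sum, card_filter, card_filter]
      push_cast
      rfl
    have h1 := count_class N j (q * d) a (Nat.mul_pos hq hd) hj
    have h2 := count_class N j q 1 hq hj
    have hqr : (0 : ℝ) < q := by exact_mod_cast hq
    have e2 : ((j : ℝ) - N) / ((q * d : ℕ) : ℝ) = (1 / (d : ℝ)) * (((j : ℝ) - N) / q) := by
      push_cast
      field_simp
    rw [e1]
    rw [e2] at h1
    have h3 : |(1 / (d : ℝ)) * ((((Ico N j).filter (fun m => m ≡ 1 [MOD q])).card : ℝ) -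
        ((j : ℝ) - N) / q)| ≤ 1 := by
      rw [abs_mul, abs_of_pos (by positivity : (0 : ℝ) < 1 / d)]
      have : 1 / (d : ℝ) ≤ 1 := by
        rw [div_le_one (by linarith)]
        exact hdr
      have h4 : 0 ≤ |(((Ico N j).filter (fun m => m ≡ 1 [MOD q])).card : ℝ) -
        ((j : ℝ) - N) / q| := abs_nonneg _
      have h5 : 0 < 1 / (d : ℝ) := by positivity
      nlinarith
    rw [mul_sub] at h3
    rw [abs_le] at h1 h3 ⊢
    constructor <;> linarith [h1.1, h1.2, h3.1, h3.2]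
  have h := abel_le N (64 * N) (by omega) c (fun m => e (Real.log (m : ℝ) * ξ)) 2 hpart
  have e3 : ∑ m ∈ Ico N (64 * N), (c m : ℂ) * e (Real.log (m : ℝ) * ξ) =
      ∑ m ∈ (Ico N (64 * N)).filter (fun m => m ≡ 1 [MOD q] ∧ d ∣ m), e (Real.log (m : ℝ) * ξ) -
      (1 / (d : ℂ)) * ∑ m ∈ (Ico N (64 * N)).filter (fun m => m ≡ 1 [MOD q]),
        e (Real.log (m : ℝ) * ξ) := by
    rw [sum_filter, sum_filter, mul_sum, ← sum_sub_distrib]
    refine sum_congr rfl fun m _ => ?_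
    simp only [hc]
    split_ifs <;> push_cast <;> ring
  rw [e3] at h
  refine h.trans ?_
  have hN0 : (0 : ℝ) < N := by exact_mod_cast hN
  have hv := e_log_var N (64 * N) hN (by omega) ξ
  have hl : Real.log ((64 * N : ℕ) : ℝ) - Real.log (N : ℝ) = Real.log 64 := by
    push_cast
    rw [Real.log_mul (by norm_num) hN0.ne']
    ring
  rw [hl] at hv
  rw [norm_e]
  linarith

theorem class_sum (N m₀ a : ℕ) (ha : 1 ≤ a) (ham : a ≤ m₀) (hN : 2 * m₀ ≤ N) (f : ℕ → ℂ) :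
    ∑ m ∈ (Ico N (64 * N)).filter (fun m => m ≡ a [MOD m₀]), f m =
      ∑ k ∈ Ico ((N - a + m₀ - 1) / m₀) ((64 * N - a + m₀ - 1) / m₀), f (m₀ * k + a) := by
  classical
  have hm₀ : 0 < m₀ := by omega
  have hset : (Ico N (64 * N)).filter (fun m => m ≡ a [MOD m₀]) =
      (Ico ((N - a + m₀ - 1) / m₀) ((64 * N - a + m₀ - 1) / m₀)).image (fun k => m₀ * k + a) := by
    ext m
    rw [mem_filter, mem_image, mem_Ico]
    constructor
    · rintro ⟨⟨h1, h2⟩, h3⟩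
      have h4 : m₀ ∣ m - a := (Nat.modEq_iff_dvd' (by omega)).1 h3.symm
      obtain ⟨k, hk⟩ := h4
      refine ⟨k, ?_, by omega⟩
      rw [mem_Ico]
      constructor
      · rw [Nat.div_le_iff_le_mul_add_pred hm₀]
        have : m₀ * k = m - a := hk.symm
        omega
      · rw [Nat.lt_iff_add_one_le, Nat.le_div_iff_mul_le hm₀]
        have : (k + 1) * m₀ = (m - a) + m₀ := by rw [hk]; ring
        omega
    · rintro ⟨k, hk, rfl⟩
      rw [mem_Ico] at hk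
      obtain ⟨h1, h2⟩ := hk
      rw [Nat.div_le_iff_le_mul_add_pred hm₀] at h1
      rw [Nat.lt_iff_add_one_le, Nat.le_div_iff_mul_le hm₀] at h2
      have h3 : (k + 1) * m₀ = m₀ * k + m₀ := by ring
      rw [h3] at h2
      refine ⟨⟨by omega, by omega⟩, ?_⟩
      simp [Nat.ModEq]
  rw [hset, sum_image]
  intro x _ y _ hxy
  simp only at hxy
  exact Nat.eq_of_mul_eq_mul_left hm₀ (by omega)

theorem fast (Q : ℕ) (hQ : 1 ≤ Q) : ∃ η : ℝ, 0 < η ∧ η ≤ 1 ∧ ∃ C : ℝ, 0 < C ∧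
    ∀ (N m₀ a : ℕ) (ξ : ℝ), 1 ≤ a → a ≤ m₀ → 2 * m₀ ≤ N → 1 ≤ |ξ| →
      |ξ| ≤ ((N : ℝ) / (2 * m₀)) ^ Q →
      ‖∑ m ∈ (Ico N (64 * N)).filter (fun m => m ≡ a [MOD m₀]), e (Real.log (m : ℝ) * ξ)‖ ≤
        C * N * (1 / |ξ| + ((N : ℝ) / (2 * m₀)) ^ (-η)) + 64 := by
  obtain ⟨η, hη0, hη1, C, hC, hb⟩ := W_bound Q hQ
  refine ⟨η, hη0, hη1, 2 * C, by positivity, ?_⟩
  intro N m₀ a ξ ha ham hN hξ1 hξ2
  have hm₀ : 0 < m₀ := by omega
  have hm₀r : (1 : ℝ) ≤ m₀ := by exact_mod_cast hm₀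
  have hm₀p : (0 : ℝ) < m₀ := by linarith
  have har : (0 : ℝ) < a := by exact_mod_cast ha
  rw [class_sum N m₀ a ha ham hN]
  set k₀ : ℕ := (N - a + m₀ - 1) / m₀ with hk₀
  set k₁ : ℕ := (64 * N - a + m₀ - 1) / m₀ with hk₁
  have b1 : m₀ * k₀ ≤ N - a + m₀ - 1 := Nat.mul_div_le _ _
  have b2 : N - a + m₀ - 1 < m₀ * (k₀ + 1) := Nat.lt_mul_div_succ _ hm₀
  have b3 : m₀ * k₁ ≤ 64 * N - a + m₀ - 1 := Nat.mul_div_le _ _
  have b4 : 64 * N - a + m₀ - 1 < m₀ * (k₁ + 1) := Nat.lt_mul_div_succ _ hm₀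
  rw [mul_add, mul_one] at b2 b4
  have hk1 : 1 ≤ k₀ := by
    rw [Nat.one_le_iff_ne_zero]
    intro h
    rw [h, mul_zero] at b2
    omega
  have b1r : (m₀ : ℝ) * k₀ ≤ 2 * N := by
    have : m₀ * k₀ ≤ 2 * N := by omega
    exact_mod_cast this
  have b2r : (N : ℝ) / 2 ≤ m₀ * k₀ := by
    have : N ≤ 2 * (m₀ * k₀) := by omega
    have : (N : ℝ) ≤ 2 * (m₀ * k₀) := by exact_mod_cast this
    linarith
  have hlow : (N : ℝ) / (2 * m₀) ≤ k₀ := by
    rw [div_le_iff₀ (by positivity)]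
    linarith
  have hup : (k₀ : ℝ) ≤ 2 * N := by
    have : (k₀ : ℝ) ≤ m₀ * k₀ := le_mul_of_one_le_left (Nat.cast_nonneg _) hm₀r
    linarith
  have hN0 : (0 : ℝ) < N := by
    have : 0 < N := by omega
    exact_mod_cast this
  have hlow0 : 0 < (N : ℝ) / (2 * m₀) := by positivity
  -- the phases
  have hph : ∀ k ∈ Ico k₀ k₁, e (Real.log ((m₀ * k + a : ℕ) : ℝ) * ξ) =
      e (Real.log (m₀ : ℝ) * ξ) * e (Real.log ((k : ℝ) + (a : ℝ) / m₀) * ξ) := by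
    intro k _
    rw [← e_add, ← add_mul, ← Real.log_mul hm₀p.ne' (by positivity)]
    congr 3
    push_cast
    field_simp
  rw [sum_congr rfl hph, ← mul_sum, norm_mul, norm_e, one_mul]
  have hβ0 : 0 ≤ (a : ℝ) / m₀ := by positivity
  have hβ1 : (a : ℝ) / m₀ ≤ 1 := by
    rw [div_le_one hm₀p]
    exact_mod_cast ham
  have hW := hb k₀ ((a : ℝ) / m₀) ξ hk1 hβ0 hβ1 hξ1
    (hξ2.trans (pow_le_pow_left₀ hlow0.le hlow Q))
  have hW2 : C * k₀ * (1 / |ξ| + (k₀ : ℝ) ^ (-η)) ≤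
      2 * C * N * (1 / |ξ| + ((N : ℝ) / (2 * m₀)) ^ (-η)) := by
    have g1 : (k₀ : ℝ) ^ (-η) ≤ ((N : ℝ) / (2 * m₀)) ^ (-η) :=
      Real.rpow_le_rpow_of_nonpos hlow0 hlow (by linarith)
    have g2 : C * k₀ ≤ 2 * C * N := by nlinarith
    have g3 : 0 ≤ 1 / |ξ| + (k₀ : ℝ) ^ (-η) := by positivity
    exact mul_le_mul g2 (by linarith) g3 (by positivity)
  set f : ℕ → ℂ := fun k => e (Real.log ((k : ℝ) + (a : ℝ) / m₀) * ξ) with hf
  have hf1 : ∀ k, ‖f k‖ = 1 := fun k => norm_e _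
  have hshort : ∀ u v : ℕ, v - u ≤ 64 → ‖∑ k ∈ Ico u v, f k‖ ≤ 64 := by
    intro u v huv
    refine (norm_sum_le _ _).trans ?_
    simp only [hf1]
    rw [sum_const, Nat.card_Ico, nsmul_eq_mul, mul_one]
    exact_mod_cast huv
  have hk01 : k₀ ≤ k₁ := Nat.div_le_div_right (by omega)
  rcases le_total k₁ (64 * k₀) with h | h
  · have e1 : ∑ k ∈ Ico k₀ k₁, f k = ∑ k ∈ Ico k₀ (64 * k₀), f k - ∑ k ∈ Ico k₁ (64 * k₀), f k := by
      rw [← sum_Ico_consecutive f hk01 h]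
      ring
    rw [e1]
    refine (norm_sub_le _ _).trans (add_le_add (hW.trans hW2) (hshort _ _ ?_))
    have g1 : 64 * (m₀ * k₀) ≤ m₀ * k₁ + 64 * m₀ := by omega
    have g2 : m₀ * (64 * k₀) ≤ m₀ * (k₁ + 64) := by
      have : m₀ * (64 * k₀) = 64 * (m₀ * k₀) := by ring
      rw [this, mul_add]
      linarith
    have := Nat.le_of_mul_le_mul_left g2 hm₀
    omega
  · have e1 : ∑ k ∈ Ico k₀ k₁, f k = ∑ k ∈ Ico k₀ (64 * k₀), f k + ∑ k ∈ Ico (64 * k₀) k₁, f k := by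
      rw [← sum_Ico_consecutive f (by omega) h]
    rw [e1]
    refine (norm_add_le _ _).trans (add_le_add (hW.trans hW2) (hshort _ _ ?_))
    have g1 : m₀ * k₁ ≤ 64 * (m₀ * k₀) + 64 * m₀ := by omega
    have g2 : m₀ * k₁ ≤ m₀ * (64 * k₀ + 64) := by
      have : m₀ * (64 * k₀ + 64) = 64 * (m₀ * k₀) + 64 * m₀ := by ring
      rw [this]
      exact g1
    have := Nat.le_of_mul_le_mul_left g2 hm₀
    omega

end Pool.Agent.W5h75.SU
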