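import Mathlib
import Pool.Agent.W5h75.SU.Count

/-!
Exponential sums over the multiples of `d` in the class `1 mod q`.
-/

set_option autoImplicit false

open Finset

namespace Pool.Agent.W5h75.SU

open Pool.Agent.H469R2.NK (e norm_e e_add e_zero conj_e)

theorem both (q Qe : ℕ) (hq : 2 ≤ q) (hQe : 1 ≤ Qe) : ∃ η : ℝ, 0 < η ∧ η ≤ 1 ∧ ∃ C : ℝ, 0 < C ∧
    (∀ (N d : ℕ) (ξ : ℝ), 0 < d → Nat.Coprime q d → (2 * (q * d : ℝ)) ≤ (N : ℝ) ^ (1 / 2 : ℝ) →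
      1 ≤ |ξ| → |ξ| ≤ (N : ℝ) ^ Qe →
      ‖∑ m ∈ (Ico N (64 * N)).filter (fun m => m ≡ 1 [MOD q] ∧ d ∣ m), e (Real.log (m : ℝ) * ξ) -
        (1 / (d : ℂ)) * ∑ m ∈ (Ico N (64 * N)).filter (fun m => m ≡ 1 [MOD q]),
          e (Real.log (m : ℝ) * ξ)‖ ≤ C * (N : ℝ) ^ (1 - η / 2)) ∧
    (∀ (N : ℕ) (ξ : ℝ), (2 * (q : ℝ)) ≤ (N : ℝ) ^ (1 / 2 : ℝ) →
      1 ≤ |ξ| → |ξ| ≤ (N : ℝ) ^ Qe →
      ‖∑ m ∈ (Ico N (64 * N)).filter (fun m => m ≡ 1 [MOD q]), e (Real.log (m : ℝ) * ξ)‖ ≤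
        C * (N / |ξ| + (N : ℝ) ^ (1 - η / 2))) := by
  classical
  obtain ⟨η, hη0, hη1, C, hC, hf⟩ := fast (2 * Qe) (by omega)
  refine ⟨η, hη0, hη1, 4 * C + 200, by positivity, ?_, ?_⟩
  all_goals
    have hbase : ∀ (N m₀ : ℕ) (ξ : ℝ), (2 * (m₀ : ℝ)) ≤ (N : ℝ) ^ (1 / 2 : ℝ) → 0 < m₀ →
        |ξ| ≤ (N : ℝ) ^ Qe → 1 ≤ (N : ℝ) ∧ 2 * m₀ ≤ N ∧
          |ξ| ≤ ((N : ℝ) / (2 * m₀)) ^ (2 * Qe) ∧
          ((N : ℝ) / (2 * m₀)) ^ (-η) ≤ (N : ℝ) ^ (-(η / 2)) := by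
      intro N m₀ ξ h1 h2 h3
      have hm : (1 : ℝ) ≤ m₀ := by exact_mod_cast h2
      have hN1 : 1 ≤ (N : ℝ) := by
        by_contra hcon
        push Not at hcon
        have : (N : ℝ) ^ (1 / 2 : ℝ) ≤ 1 := Real.rpow_le_one (Nat.cast_nonneg _) hcon.le (by norm_num)
        linarith
      have hN0 : (0 : ℝ) < N := by linarith
      have hs : (N : ℝ) ^ (1 / 2 : ℝ) * (N : ℝ) ^ (1 / 2 : ℝ) = N := by
        rw [← Real.rpow_add hN0]
        norm_num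
      have hs1 : 1 ≤ (N : ℝ) ^ (1 / 2 : ℝ) := Real.one_le_rpow hN1 (by norm_num)
      have hsN : (N : ℝ) ^ (1 / 2 : ℝ) ≤ N := by nlinarith
      have hlow : (N : ℝ) ^ (1 / 2 : ℝ) ≤ (N : ℝ) / (2 * m₀) := by
        rw [le_div_iff₀ (by positivity)]
        calc (N : ℝ) ^ (1 / 2 : ℝ) * (2 * m₀) ≤ (N : ℝ) ^ (1 / 2 : ℝ) * (N : ℝ) ^ (1 / 2 : ℝ) :=
              mul_le_mul_of_nonneg_left h1 (by positivity)
          _ = N := hs
      refine ⟨hN1, ?_, ?_, ?_⟩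
      · have : (2 * (m₀ : ℝ)) ≤ N := h1.trans hsN
        exact_mod_cast this
      · calc |ξ| ≤ (N : ℝ) ^ Qe := h3
          _ = ((N : ℝ) ^ (1 / 2 : ℝ)) ^ (2 * Qe) := by
            rw [pow_mul, sq, hs]
          _ ≤ ((N : ℝ) / (2 * m₀)) ^ (2 * Qe) := pow_le_pow_left₀ (by positivity) hlow _
      · calc ((N : ℝ) / (2 * m₀)) ^ (-η) ≤ ((N : ℝ) ^ (1 / 2 : ℝ)) ^ (-η) :=
              Real.rpow_le_rpow_of_nonpos (by positivity) hlow (by linarith)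
          _ = (N : ℝ) ^ (-(η / 2)) := by
            rw [← Real.rpow_mul hN0.le]
            congr 1
            ring
  · intro N d ξ hd hqd h1 h2 h3
    have hm₀ : 0 < q * d := Nat.mul_pos (by omega) hd
    have hdr : (1 : ℝ) ≤ d := by exact_mod_cast hd
    have hqr : (2 : ℝ) ≤ q := by exact_mod_cast hq
    obtain ⟨hN1, hmN, hξ, hη2⟩ := hbase N (q * d) ξ (by push_cast; linarith) hm₀ h3
    have hqN : (2 * (q : ℝ)) ≤ (N : ℝ) ^ (1 / 2 : ℝ) := by nlinarith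
    obtain ⟨-, hqN', hξ', hη2'⟩ := hbase N q ξ hqN (by omega) h3
    have hN0 : (0 : ℝ) < N := by linarith
    have hNη : (N : ℝ) * (N : ℝ) ^ (-(η / 2)) = (N : ℝ) ^ (1 - η / 2) := by
      have : (N : ℝ) * (N : ℝ) ^ (-(η / 2)) = (N : ℝ) ^ (1 : ℝ) * (N : ℝ) ^ (-(η / 2)) := by
        rw [Real.rpow_one]
      rw [this, ← Real.rpow_add hN0]
      congr 1
    have hhalf : (N : ℝ) ^ (1 / 2 : ℝ) ≤ (N : ℝ) ^ (1 - η / 2) :=
      Real.rpow_le_rpow_of_exponent_le hN1 (by linarith)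
    have hone : 1 ≤ (N : ℝ) ^ (1 / 2 : ℝ) := Real.one_le_rpow hN1 (by norm_num)
    rcases le_total |ξ| ((N : ℝ) ^ (1 / 2 : ℝ)) with h | h
    · refine (slow q d N (by omega) hd hqd (by exact_mod_cast hN1) ξ).trans ?_
      have hl : Real.log 64 ≤ 5 := by
        have : Real.log 64 = 6 * Real.log 2 := by
          rw [show (64 : ℝ) = 2 ^ 6 by norm_num, Real.log_pow]
          norm_num
        rw [this]
        have := Real.log_two_lt_d9
        linarith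
      have hl0 : 0 ≤ Real.log 64 := Real.log_nonneg (by norm_num)
      have hpi := Real.pi_lt_d2
      have hpi0 := Real.pi_pos
      have g1 : 2 * Real.pi * |ξ| * Real.log 64 ≤ 32 * |ξ| := by
        have k1 : Real.pi * Real.log 64 ≤ 16 := by nlinarith
        nlinarith [abs_nonneg ξ]
      have g2 : 0 ≤ C * (N : ℝ) ^ (1 - η / 2) := by positivity
      nlinarith
    · -- large phases
      obtain ⟨a₀, ha1, ha2⟩ := Nat.chineseRemainder hqd 1 0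
      have hclass : ∀ m : ℕ, (m ≡ 1 [MOD q] ∧ d ∣ m) ↔ m ≡ a₀ % (q * d) [MOD q * d] := by
        intro m
        have e0 : m ≡ a₀ % (q * d) [MOD q * d] ↔ m ≡ a₀ [MOD q * d] :=
          ⟨fun h => h.trans (Nat.mod_modEq _ _), fun h => h.trans (Nat.mod_modEq _ _).symm⟩
        rw [e0, ← Nat.modEq_and_modEq_iff_modEq_mul hqd]
        constructor
        · rintro ⟨h1, h2⟩
          exact ⟨h1.trans ha1.symm, ((Nat.modEq_zero_iff_dvd.2 h2)).trans ha2.symm⟩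
        · rintro ⟨h1, h2⟩
          exact ⟨h1.trans ha1, Nat.modEq_zero_iff_dvd.1 (h2.trans ha2)⟩
      have ha0 : 1 ≤ a₀ % (q * d) := by
        rw [Nat.one_le_iff_ne_zero]
        intro h0
        have h5 : q ∣ a₀ := (dvd_mul_right q d).trans (Nat.dvd_of_mod_eq_zero h0)
        have h6 : 0 ≡ 1 [MOD q] := (Nat.modEq_zero_iff_dvd.2 h5).symm.trans ha1
        have h7 : (q : ℕ) ∣ 1 := (Nat.modEq_zero_iff_dvd.1 h6.symm)
        have := Nat.le_of_dvd one_pos h7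
        omega
      have k1 := hf N (q * d) (a₀ % (q * d)) ξ ha0 (Nat.mod_lt _ hm₀).le hmN h2 hξ
      have k2 := hf N q 1 ξ le_rfl (by omega) hqN' h2 hξ'
      simp only [hclass]
      refine (norm_sub_le _ _).trans ?_
      rw [norm_mul]
      have hd1 : ‖(1 / (d : ℂ))‖ ≤ 1 := by
        rw [norm_div, norm_one, Complex.norm_natCast, div_le_one (by linarith)]
        exact hdr
      have hinv : 1 / |ξ| ≤ (N : ℝ) ^ (-(1 / 2) : ℝ) := by
        rw [Real.rpow_neg hN0.le, one_div]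
        exact inv_anti₀ (by positivity) h
      have hinv2 : (N : ℝ) ^ (-(1 / 2) : ℝ) ≤ (N : ℝ) ^ (-(η / 2)) :=
        Real.rpow_le_rpow_of_exponent_le hN1 (by linarith)
      have hbd : ∀ t : ℝ, t ≤ (N : ℝ) ^ (-(η / 2)) →
          C * N * (1 / |ξ| + t) + 64 ≤ 2 * C * (N : ℝ) ^ (1 - η / 2) + 64 := by
        intro t ht
        have g1 : C * N * (1 / |ξ| + t) ≤ C * N * (2 * (N : ℝ) ^ (-(η / 2))) :=
          mul_le_mul_of_nonneg_left (by linarith) (by positivity)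
        have g2 : C * N * (2 * (N : ℝ) ^ (-(η / 2))) = 2 * C * (N : ℝ) ^ (1 - η / 2) := by
          rw [← hNη]; ring
        linarith
      have m1 := k1.trans (hbd _ (by push_cast at hη2 ⊢; exact hη2))
      have m2 := k2.trans (hbd _ hη2')
      have m3 : norm (1 / (d : ℂ)) * norm (∑ m ∈ (Ico N (64 * N)).filter
          (fun m => m ≡ 1 [MOD q]), e (Real.log (m : ℝ) * ξ)) ≤
          2 * C * (N : ℝ) ^ (1 - η / 2) + 64 := by
        refine le_trans (mul_le_of_le_one_left (norm_nonneg _) hd1) m2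
      linarith
  · intro N ξ h1 h2 h3
    obtain ⟨hN1, hmN, hξ, hη2⟩ := hbase N q ξ h1 (by omega) h3
    have hN0 : (0 : ℝ) < N := by linarith
    have hNη : (N : ℝ) * (N : ℝ) ^ (-(η / 2)) = (N : ℝ) ^ (1 - η / 2) := by
      have : (N : ℝ) * (N : ℝ) ^ (-(η / 2)) = (N : ℝ) ^ (1 : ℝ) * (N : ℝ) ^ (-(η / 2)) := by
        rw [Real.rpow_one]
      rw [this, ← Real.rpow_add hN0]
      congr 1
    have hone : 1 ≤ (N : ℝ) ^ (1 - η / 2) := Real.one_le_rpow hN1 (by linarith)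
    have k2 := hf N q 1 ξ le_rfl (by omega) hmN h2 hξ
    refine k2.trans ?_
    have g1 : C * N * (1 / |ξ| + ((N : ℝ) / (2 * q)) ^ (-η)) ≤
        C * N * (1 / |ξ| + (N : ℝ) ^ (-(η / 2))) :=
      mul_le_mul_of_nonneg_left (by linarith) (by positivity)
    have g2 : C * N * (1 / |ξ| + (N : ℝ) ^ (-(η / 2))) = C * (N / |ξ|) + C * (N : ℝ) ^ (1 - η / 2) := by
      rw [← hNη]; ring
    have g3 : 0 ≤ N / |ξ| := by positivity
    have g4 : 0 ≤ C * (N / |ξ|) := by positivity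
    have g5 : 0 ≤ C * (N : ℝ) ^ (1 - η / 2) := by positivity
    nlinarith

end Pool.Agent.W5h75.SU
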