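import Mathlib
import Pool.Agent.W5h75.SU.Both
import Pool.Agent.H20R2.EN.FLem

/-!
Exponential sums over rough numbers in the class `1 mod q`.
-/

set_option autoImplicit false

open Finset

namespace Pool.Agent.W5h75.SU

open Pool.Agent.H469R2.NK (e norm_e e_add e_zero conj_e)

/-- the numbers of the class `1 mod q` in `[N, 64 N)` -/
def Om (q N : ℕ) : Finset ℕ := (Ico N (64 * N)).filter (fun m => m ≡ 1 [MOD q])

open Classical in
/-- the rough numbers of the class `1 mod q` in `[N, 64 N)` -/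
noncomputable def RV (q Y N : ℕ) : Finset ℕ :=
  (Om q N).filter (fun m => ∀ p : ℕ, p.Prime → p ≤ Y → ¬ p ∣ m)

/-- the exponent of the double power -/
def JJ (y : ℕ) : ℕ := Nat.log 2 (Nat.log 2 y) + 1

lemma JJ_lt (y : ℕ) : y < 2 ^ 2 ^ JJ y := by
  have h1 : y < 2 ^ (Nat.log 2 y + 1) := Nat.lt_pow_succ_log_self (by norm_num) y
  have h2 : Nat.log 2 y + 1 ≤ 2 ^ JJ y := Nat.lt_pow_succ_log_self (by norm_num) _
  exact h1.trans_le (Nat.pow_le_pow_right (by norm_num) h2)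

lemma JJ_pow (y : ℕ) (hy : 2 ≤ y) : 2 ^ JJ y ≤ 2 * Nat.log 2 y := by
  have h0 : Nat.log 2 y ≠ 0 := by
    have : 0 < Nat.log 2 y := Nat.log_pos (by norm_num) hy
    omega
  unfold JJ
  rw [pow_succ]
  have := Nat.pow_log_le_self 2 h0
  omega

lemma JJ_le (y : ℕ) (hy : 2 ≤ y) : 2 ^ 2 ^ JJ y ≤ y ^ 2 := by
  calc 2 ^ 2 ^ JJ y ≤ 2 ^ (2 * Nat.log 2 y) := Nat.pow_le_pow_right (by norm_num) (JJ_pow y hy)
    _ = (2 ^ Nat.log 2 y) ^ 2 := by rw [← pow_mul, mul_comm]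
    _ ≤ y ^ 2 := Nat.pow_le_pow_left (Nat.pow_log_le_self 2 (by omega)) 2

lemma JJ_small (y : ℕ) (hy : 3 ≤ y) : JJ y + 2 ≤ 2 * y := by
  unfold JJ
  have h1 : Nat.log 2 (Nat.log 2 y) ≤ Nat.log 2 y := Nat.log_le_self _ _
  have h2 : Nat.log 2 y ≤ y := Nat.log_le_self _ _
  omega

lemma prod_Icc (Y : ℕ) (hY : 1 ≤ Y) : ∏ n ∈ Icc 2 Y, (1 - 1 / (n : ℝ)) = 1 / Y := by
  induction Y, hY using Nat.le_induction with
  | base => simp
  | succ Y hY ih =>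
    rw [prod_Icc_succ_top (by omega), ih]
    have : (0 : ℝ) < Y := by exact_mod_cast hY
    push_cast
    field_simp
    ring

lemma prod_low (Y : ℕ) (hY : 1 ≤ Y) (P : Finset ℕ) (hP : ∀ p ∈ P, 2 ≤ p ∧ p ≤ Y) :
    1 / (Y : ℝ) ≤ ∏ p ∈ P, (1 - 1 / (p : ℝ)) := by
  have hsub : P ⊆ Icc 2 Y := fun p hp => mem_Icc.2 (hP p hp)
  rw [← prod_Icc Y hY, ← prod_sdiff hsub]
  have h01 : ∀ n ∈ Icc 2 Y, 0 ≤ (1 - 1 / (n : ℝ)) ∧ (1 - 1 / (n : ℝ)) ≤ 1 := by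
    intro n hn
    have h2 : (2 : ℝ) ≤ n := by exact_mod_cast (mem_Icc.1 hn).1
    have h3 : 1 / (n : ℝ) ≤ 1 := by
      rw [div_le_one (by linarith)]
      linarith
    have h4 : 0 < 1 / (n : ℝ) := by positivity
    constructor <;> linarith
  have h1 : ∏ p ∈ Icc 2 Y \ P, (1 - 1 / (p : ℝ)) ≤ 1 :=
    prod_le_one (fun n hn => (h01 n (mem_sdiff.1 hn).1).1) (fun n hn => (h01 n (mem_sdiff.1 hn).1).2)
  have h2 : 0 ≤ ∏ p ∈ P, (1 - 1 / (p : ℝ)) := prod_nonneg fun n hn => (h01 n (hsub hn)).1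
  exact mul_le_of_le_one_left h2 h1

lemma card_powerset_prod (P : Finset ℕ) (hP : ∀ p ∈ P, p.Prime) (D : ℕ) :
    (P.powerset.filter (fun T : Finset ℕ => ∏ p ∈ T, p ≤ D)).card ≤ D := by
  have h : (P.powerset.filter (fun T : Finset ℕ => ∏ p ∈ T, p ≤ D)).card ≤ (Icc 1 D).card := by
    refine card_le_card_of_injOn (fun T => ∏ p ∈ T, p) ?_ ?_
    · intro T hT
      rw [Finset.mem_coe, mem_filter, mem_powerset] at hT
      rw [Finset.mem_coe, mem_Icc]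
      exact ⟨prod_pos fun p hp => (hP p (hT.1 hp)).pos, hT.2⟩
    · intro T hT T' hT' hTT
      rw [Finset.mem_coe, mem_filter, mem_powerset] at hT hT'
      have h1 := Nat.primeFactors_prod (fun p hp => hP p (hT.1 hp))
      have h2 := Nat.primeFactors_prod (fun p hp => hP p (hT'.1 hp))
      simp only at hTT
      rw [← h1, ← h2, hTT]
  simpa using h

open Classical in
/-- the fundamental lemma in dimension one -/
def FL1 (C0 : ℕ) : Prop := ∀ (b J z0 : ℕ) (P : Finset ℕ) (g : ℕ → ℝ),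
      C0 ≤ b → C0 ≤ z0 → (∀ p ∈ P, p.Prime ∧ z0 < p ∧ p ≤ 2 ^ 2 ^ J) →
      (∀ p ∈ P, 0 ≤ g p ∧ g p ≤ (1 : ℕ) / ((p : ℝ) - 1)) →
      ∀ (Ω : Finset ℕ) (w : ℕ → ℝ) (hit : ℕ → ℕ → Prop) (A : ℝ) (err : Finset ℕ → ℝ),
        (∀ m ∈ Ω, 0 ≤ w m) → 0 ≤ A →
        (∀ T ⊆ P, ∏ p ∈ T, p ≤ (2 ^ 2 ^ J) ^ (C0 * b) →
          |∑ m ∈ Ω.filter (fun m => ∀ p ∈ T, hit p m), w m - A * ∏ p ∈ T, g p| ≤ err T) →
        |∑ m ∈ Ω.filter (fun m => ∀ p ∈ P, ¬ hit p m), w m - A * ∏ p ∈ P, (1 - g p)| ≤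
          (1 / 2 : ℝ) ^ b * (A * ∏ p ∈ P, (1 - g p)) +
            ((J : ℝ) + 2) *
              ∑ T ∈ P.powerset.filter (fun T : Finset ℕ => ∏ p ∈ T, p ≤ (2 ^ 2 ^ J) ^ (C0 * b)),
                err T

theorem exists_FL1 : ∃ C0 : ℕ, 1 ≤ C0 ∧ FL1 C0 := Pool.Agent.H20R2.fLem 1

/-- the fundamental lemma applied to the weights `1 + Re (z m ^ (i t))` -/
theorem app (C0 : ℕ) (b : ℕ) (hb : C0 ≤ b)
    (FL : FL1 C0)
    (q N Y : ℕ) (hq : 0 < q) (hN : 1 ≤ N) (hqz : ∀ p : ℕ, p.Prime → p ≤ C0 → p ∣ q) (hY : 3 ≤ Y)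
    (z : ℂ) (hz : ‖z‖ ≤ 1) (ξ : ℝ) (Er : ℝ)
    (hEr : ∀ d : ℕ, 0 < d → Nat.Coprime q d → d ≤ Y ^ (2 * (C0 * b)) →
      ‖z‖ * ‖∑ m ∈ (Ico N (64 * N)).filter (fun m => m ≡ 1 [MOD q] ∧ d ∣ m),
          e (Real.log (m : ℝ) * ξ) -
        (1 / (d : ℂ)) * ∑ m ∈ (Ico N (64 * N)).filter (fun m => m ≡ 1 [MOD q]),
          e (Real.log (m : ℝ) * ξ)‖ ≤ Er) :
    ∃ V : ℝ, 1 / (Y : ℝ) ≤ V ∧ (V = ∏ p ∈ (range (Y + 1)).filter
        (fun p => p.Prime ∧ C0 < p ∧ ¬ p ∣ q), (1 - 1 / (p : ℝ))) ∧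
      |∑ m ∈ RV q Y N, (1 + (z * e (Real.log (m : ℝ) * ξ)).re) -
        (∑ m ∈ Om q N, (1 + (z * e (Real.log (m : ℝ) * ξ)).re)) * V| ≤
      (1 / 2 : ℝ) ^ b * ((∑ m ∈ Om q N, (1 + (z * e (Real.log (m : ℝ) * ξ)).re)) * V) +
        2 * Y * ((Y : ℝ) ^ (2 * (C0 * b)) * (2 + Er)) := by
  classical
  set P : Finset ℕ := (range (Y + 1)).filter (fun p => p.Prime ∧ C0 < p ∧ ¬ p ∣ q) with hP
  have hPmem : ∀ p ∈ P, p.Prime ∧ C0 < p ∧ ¬ p ∣ q ∧ p ≤ Y := by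
    intro p hp
    obtain ⟨h1, h2, h3, h4⟩ := mem_filter.1 hp
    exact ⟨h2, h3, h4, by have := mem_range.1 h1; omega⟩
  set w : ℕ → ℝ := fun m => 1 + (z * e (Real.log (m : ℝ) * ξ)).re with hw
  have hw0 : ∀ m, 0 ≤ w m := by
    intro m
    have h1 : |(z * e (Real.log (m : ℝ) * ξ)).re| ≤ ‖z * e (Real.log (m : ℝ) * ξ)‖ :=
      Complex.abs_re_le_norm _
    rw [norm_mul, norm_e, mul_one] at h1
    have := (abs_le.1 (h1.trans hz)).1
    simp only [hw]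
    linarith
  have hA0 : 0 ≤ ∑ m ∈ Om q N, w m := sum_nonneg fun m _ => hw0 m
  have hDle : (2 ^ 2 ^ JJ Y) ^ (C0 * b) ≤ Y ^ (2 * (C0 * b)) := by
    rw [pow_mul Y 2]
    exact Nat.pow_le_pow_left (JJ_le Y (by omega)) _
  have hEr0 : 0 ≤ Er := le_trans (by positivity)
    (hEr 1 one_pos (Nat.coprime_one_right q) (Nat.one_le_pow _ _ (by omega)))
  refine ⟨∏ p ∈ P, (1 - 1 / (p : ℝ)), prod_low Y (by omega) P (fun p hp =>
    ⟨(hPmem p hp).1.two_le, (hPmem p hp).2.2.2⟩), rfl, ?_⟩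
  have hfilt : ∀ T ⊆ P, ∀ inst : DecidablePred (fun m : ℕ => ∀ p ∈ T, p ∣ m),
      (@Finset.filter ℕ (fun m => ∀ p ∈ T, p ∣ m) inst (Om q N)) =
      (Ico N (64 * N)).filter (fun m => m ≡ 1 [MOD q] ∧ (∏ p ∈ T, p) ∣ m) := by
    intro T hT inst
    ext m
    rw [Om, mem_filter, mem_filter, mem_filter]
    constructor
    · rintro ⟨⟨h1, h2⟩, h3⟩
      exact ⟨h1, h2, Finset.prod_primes_dvd m (fun p hp => (hPmem p (hT hp)).1.prime) h3⟩
    · rintro ⟨h1, h2, h3⟩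
      exact ⟨⟨h1, h2⟩, fun p hp => (dvd_prod_of_mem _ hp).trans h3⟩
  have hcop : ∀ T ⊆ P, Nat.Coprime q (∏ p ∈ T, p) := by
    intro T hT
    refine Nat.Coprime.prod_right fun p hp => ?_
    exact ((Nat.Prime.coprime_iff_not_dvd (hPmem p (hT hp)).1).2 (hPmem p (hT hp)).2.2.1).symm
  have key := FL b (JJ Y) C0 P (fun p => 1 / (p : ℝ)) hb le_rfl
    (fun p hp => ⟨(hPmem p hp).1, (hPmem p hp).2.1, (hPmem p hp).2.2.2.trans (JJ_lt Y).le⟩)
    (fun p hp => by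
      have h2 : (2 : ℝ) ≤ p := by exact_mod_cast (hPmem p hp).1.two_le
      refine ⟨by positivity, ?_⟩
      rw [Nat.cast_one]
      exact one_div_le_one_div_of_le (by linarith) (by linarith))
    (Om q N) w (fun p m => p ∣ m) (∑ m ∈ Om q N, w m) (fun _ => 2 + Er) (fun m _ => hw0 m) hA0
    (by
      intro T hT hTD
      have hd0 : 0 < ∏ p ∈ T, p := prod_pos fun p hp => (hPmem p (hT hp)).1.pos
      set d : ℕ := ∏ p ∈ T, p with hd
      have hdr : (0 : ℝ) < d := by exact_mod_cast hd0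
      have hprod : ∏ p ∈ T, (1 / (p : ℝ)) = 1 / (d : ℝ) := by
        rw [hd]
        push_cast
        rw [Finset.prod_div_distrib, prod_const_one]
      have hs1 := slow q d N hq hd0 (hcop T hT) hN 0
      have hs2 := hEr d hd0 (hcop T hT) (hTD.trans hDle)
      rw [hfilt T hT, hprod]
      set S1 : Finset ℕ := (Ico N (64 * N)).filter (fun m => m ≡ 1 [MOD q] ∧ d ∣ m) with hS1
      have hOm : Om q N = (Ico N (64 * N)).filter (fun m => m ≡ 1 [MOD q]) := rfl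
      rw [← hOm] at hs1 hs2
      simp only [mul_zero, e_zero, sum_const, nsmul_eq_mul, mul_one, abs_zero, zero_mul,
        add_zero] at hs1
      have hs1' : |(S1.card : ℝ) - (1 / (d : ℝ)) * ((Om q N).card : ℝ)| ≤ 2 := by
        have : ((S1.card : ℂ) - (1 / (d : ℂ)) * ((Om q N).card : ℂ)) =
            (((S1.card : ℝ) - (1 / (d : ℝ)) * ((Om q N).card : ℝ) : ℝ) : ℂ) := by
          push_cast
          ring
        rw [this, Complex.norm_real] at hs1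
        exact hs1
      set U1 : ℂ := ∑ m ∈ S1, e (Real.log (m : ℝ) * ξ) with hU1
      set U2 : ℂ := ∑ m ∈ Om q N, e (Real.log (m : ℝ) * ξ) with hU2
      have e1 : ∑ m ∈ S1, w m = S1.card + (z * U1).re := by
        simp only [hw]
        rw [sum_add_distrib, hU1, mul_sum, Complex.re_sum]
        simp
      have e2 : ∑ m ∈ Om q N, w m = (Om q N).card + (z * U2).re := by
        simp only [hw]
        rw [sum_add_distrib, hU2, mul_sum, Complex.re_sum]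
        simp
      have e3 : (z * U1).re - (z * U2).re * (1 / (d : ℝ)) = (z * (U1 - (1 / (d : ℂ)) * U2)).re := by
        have h1 : (1 / (d : ℂ)) = ((1 / (d : ℝ) : ℝ) : ℂ) := by push_cast; ring
        have h2 : z * (U1 - (1 / (d : ℂ)) * U2) = z * U1 - ((1 / (d : ℝ) : ℝ) : ℂ) * (z * U2) := by
          rw [h1]; ring
        rw [h2, Complex.sub_re, Complex.re_ofReal_mul]
        ring
      have e4 : |(z * U1).re - (z * U2).re * (1 / (d : ℝ))| ≤ Er := by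
        rw [e3]
        refine (Complex.abs_re_le_norm _).trans ?_
        rw [norm_mul]
        exact hs2
      rw [e1, e2]
      rw [abs_le] at hs1' e4 ⊢
      constructor <;> linarith [hs1'.1, hs1'.2, e4.1, e4.2])
  have hRV : ∀ inst : DecidablePred (fun m : ℕ => ∀ p ∈ P, ¬ p ∣ m),
      (@Finset.filter ℕ (fun m => ∀ p ∈ P, ¬ p ∣ m) inst (Om q N)) = RV q Y N := by
    intro inst
    ext m
    rw [RV, mem_filter, mem_filter]
    constructor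
    · rintro ⟨h1, h2⟩
      refine ⟨h1, fun p hp hpY hpm => ?_⟩
      by_cases hpq : p ∣ q
      · have h3 : m ≡ 1 [MOD q] := (mem_filter.1 h1).2
        have h4 : m ≡ 1 [MOD p] := h3.of_dvd hpq
        have h5 : 0 ≡ 1 [MOD p] := (Nat.modEq_zero_iff_dvd.2 hpm).symm.trans h4
        have h6 : p ∣ 1 := Nat.modEq_zero_iff_dvd.1 h5.symm
        exact hp.one_lt.ne' (Nat.dvd_one.1 h6)
      · refine h2 p (mem_filter.2 ⟨mem_range.2 (by omega), hp, ?_, hpq⟩) hpm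
        by_contra hcon
        exact hpq (hqz p hp (by omega))
    · rintro ⟨h1, h2⟩
      exact ⟨h1, fun p hp => h2 p (hPmem p hp).1 (hPmem p hp).2.2.2⟩
  rw [hRV] at key
  refine key.trans (add_le_add le_rfl ?_)
  rw [sum_const, nsmul_eq_mul]
  have h1 : ((P.powerset.filter (fun T : Finset ℕ => ∏ p ∈ T, p ≤ (2 ^ 2 ^ JJ Y) ^ (C0 * b))).card :
      ℝ) ≤ (Y : ℝ) ^ (2 * (C0 * b)) := by
    have := (card_powerset_prod P (fun p hp => (hPmem p hp).1) ((2 ^ 2 ^ JJ Y) ^ (C0 * b))).trans hDle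
    exact_mod_cast this
  have h2 : ((JJ Y : ℕ) : ℝ) + 2 ≤ 2 * Y := by exact_mod_cast JJ_small Y hY
  have h3 : (0 : ℝ) ≤ 2 + Er := by linarith
  exact mul_le_mul h2 (mul_le_mul_of_nonneg_right h1 h3) (by positivity) (by positivity)

end Pool.Agent.W5h75.SU
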