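import Mathlib
import Pool.Agent.W5h75.SU.Rough

/-!
Exponential sums over rough numbers: conclusion.
-/

set_option autoImplicit false

open Finset

namespace Pool.Agent.W5h75.SU

open Pool.Agent.H469R2.NK (e norm_e e_add e_zero conj_e)

theorem rough_exp (C0 : ℕ) (FL : FL1 C0) (q Qe : ℕ) (hq : 2 ≤ q) (hQe : 1 ≤ Qe)
    (hqz : ∀ p : ℕ, p.Prime → p ≤ C0 → p ∣ q) :
    ∃ δ : ℝ, 0 < δ ∧ ∃ T₁ : ℝ, 1 ≤ T₁ ∧ ∃ N₀ : ℕ, ∀ N Y : ℕ, N₀ ≤ N → 3 ≤ Y → (Y : ℝ) ≤ (N : ℝ) ^ δ →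
      0 < (RV q Y N).card ∧ ∀ ξ : ℝ, T₁ ≤ |ξ| → |ξ| ≤ (N : ℝ) ^ Qe →
        ‖∑ m ∈ RV q Y N, e (Real.log (m : ℝ) * ξ)‖ ≤ 1 / 8 * ((RV q Y N).card : ℝ) := by
  classical
  obtain ⟨η, hη0, hη1, C, hC, hb1, hb2⟩ := both q Qe hq hQe
  set b : ℕ := C0 + 10 with hb
  have hqr : (2 : ℝ) ≤ q := by exact_mod_cast hq
  set δ : ℝ := (η / 4) / (2 + 2 * (C0 * b)) with hδ
  have hden : (0 : ℝ) < 2 + 2 * (C0 * b) := by positivity
  have hδ0 : 0 < δ := by positivity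
  have hδe : δ * (2 + 2 * (C0 * b)) = η / 4 := by rw [hδ]; field_simp
  have l1 : ∀ᶠ x : ℝ in Filter.atTop, 2 ^ 11 * q * (2 + C) + 2 * q ≤ x ^ (η / 4) :=
    (tendsto_rpow_atTop (by linarith)).eventually_ge_atTop _
  have l2 : ∀ᶠ x : ℝ in Filter.atTop, 128 * q * (C + 1) ≤ x ^ (η / 2) :=
    (tendsto_rpow_atTop (by linarith)).eventually_ge_atTop _
  obtain ⟨x₀, hx₀⟩ := Filter.eventually_atTop.mp (l1.and (l2.and (Filter.eventually_ge_atTop (q : ℝ))))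
  refine ⟨δ, hδ0, 128 * q * (C + 1), by nlinarith, max 1 ⌈x₀⌉₊, ?_⟩
  intro N Y hN hY hYN
  have hN1 : 1 ≤ N := (le_max_left _ _).trans hN
  have hNr : (1 : ℝ) ≤ N := by exact_mod_cast hN1
  have hN0 : (0 : ℝ) < N := by linarith
  have hNx : x₀ ≤ N := (Nat.le_ceil _).trans (by exact_mod_cast (le_max_right _ _).trans hN)
  obtain ⟨h1, h2, hqN⟩ := hx₀ N hNx
  have hY0 : (3 : ℝ) ≤ Y := by exact_mod_cast hY
  have hxp : ∀ u : ℝ, 0 < (N : ℝ) ^ u := fun u => Real.rpow_pos_of_pos hN0 u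
  have hxm : ∀ u v : ℝ, u ≤ v → (N : ℝ) ^ u ≤ (N : ℝ) ^ v := fun u v h =>
    Real.rpow_le_rpow_of_exponent_le hNr h
  have hxa : ∀ u v : ℝ, (N : ℝ) ^ u * (N : ℝ) ^ v = (N : ℝ) ^ (u + v) := fun u v =>
    (Real.rpow_add hN0 u v).symm
  -- the level
  have hYD : (Y : ℝ) ^ (2 + 2 * (C0 * b)) ≤ (N : ℝ) ^ (η / 4) := by
    calc (Y : ℝ) ^ (2 + 2 * (C0 * b)) ≤ ((N : ℝ) ^ δ) ^ (2 + 2 * (C0 * b)) :=
          pow_le_pow_left₀ (by linarith) hYN _
      _ = (N : ℝ) ^ (η / 4) := by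
        rw [← Real.rpow_natCast, ← Real.rpow_mul hN0.le]
        congr 1
        push_cast
        exact hδe
  have hYD' : (Y : ℝ) ^ (2 * (C0 * b)) ≤ (N : ℝ) ^ (η / 4) :=
    (pow_le_pow_right₀ (by linarith) (by omega)).trans hYD
  -- the error
  have hErr : 2 * Y * ((Y : ℝ) ^ (2 * (C0 * b)) * (2 + C * (N : ℝ) ^ (1 - η / 2))) ≤
      1 / 1024 * ((N : ℝ) / q) * (1 / Y) := by
    have g1 : 2 + C * (N : ℝ) ^ (1 - η / 2) ≤ (2 + C) * (N : ℝ) ^ (1 - η / 2) := by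
      have : 1 ≤ (N : ℝ) ^ (1 - η / 2) := Real.one_le_rpow hNr (by linarith)
      linarith
    have g2 : 2 ^ 11 * q * (2 + C) * ((N : ℝ) ^ (η / 4) * (N : ℝ) ^ (1 - η / 2)) ≤ N := by
      rw [hxa]
      have k1 : 2 ^ 11 * q * (2 + C) * (N : ℝ) ^ (η / 4 + (1 - η / 2)) ≤
          (N : ℝ) ^ (η / 4) * (N : ℝ) ^ (η / 4 + (1 - η / 2)) :=
        mul_le_mul_of_nonneg_right (by linarith) (hxp _).le
      rw [hxa] at k1
      have k2 : η / 4 + (η / 4 + (1 - η / 2)) = 1 := by ring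
      rw [k2, Real.rpow_one] at k1
      exact k1
    have g3 : (Y : ℝ) ^ (2 + 2 * (C0 * b)) * (2 + C * (N : ℝ) ^ (1 - η / 2)) ≤
        (N : ℝ) ^ (η / 4) * ((2 + C) * (N : ℝ) ^ (1 - η / 2)) :=
      mul_le_mul hYD g1 (by positivity) (hxp _).le
    have e0 : 1 / 1024 * ((N : ℝ) / q) * (1 / Y) = (N / 1024) / (q * Y) := by
      field_simp
    rw [e0, le_div_iff₀ (by positivity)]
    have e1 : 2 * Y * ((Y : ℝ) ^ (2 * (C0 * b)) * (2 + C * (N : ℝ) ^ (1 - η / 2))) * (q * Y) =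
        2 * q * ((Y : ℝ) ^ (2 + 2 * (C0 * b)) * (2 + C * (N : ℝ) ^ (1 - η / 2))) := by
      rw [pow_add]; ring
    rw [e1]
    have g4 : 2 * q * ((Y : ℝ) ^ (2 + 2 * (C0 * b)) * (2 + C * (N : ℝ) ^ (1 - η / 2))) ≤
        2 * q * ((N : ℝ) ^ (η / 4) * ((2 + C) * (N : ℝ) ^ (1 - η / 2))) :=
      mul_le_mul_of_nonneg_left g3 (by positivity)
    have e2 : 2 ^ 11 * q * (2 + C) * ((N : ℝ) ^ (η / 4) * (N : ℝ) ^ (1 - η / 2)) =
      1024 * (2 * q * ((N : ℝ) ^ (η / 4) * ((2 + C) * (N : ℝ) ^ (1 - η / 2)))) := by ring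
    rw [e2] at g2
    linarith
  -- small multiples are admissible for the exponential sums
  have hdN : ∀ d : ℕ, d ≤ Y ^ (2 * (C0 * b)) → (2 * (q * d : ℝ)) ≤ (N : ℝ) ^ (1 / 2 : ℝ) := by
    intro d hd
    have g1 : (d : ℝ) ≤ (N : ℝ) ^ (η / 4) := by
      have : (d : ℝ) ≤ (Y : ℝ) ^ (2 * (C0 * b)) := by exact_mod_cast hd
      linarith
    calc (2 * (q * d : ℝ)) = (2 * q) * d := by ring
      _ ≤ (N : ℝ) ^ (η / 4) * (N : ℝ) ^ (η / 4) := by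
          refine mul_le_mul ?_ g1 (Nat.cast_nonneg _) (hxp _).le
          have : 0 ≤ 2 ^ 11 * q * (2 + C) := by positivity
          linarith
      _ ≤ (N : ℝ) ^ (1 / 2 : ℝ) := by
          rw [hxa]
          exact hxm _ _ (by linarith)
  -- the size of `Om`
  have hOm : (N : ℝ) / q ≤ ((Om q N).card : ℝ) := by
    have g1 := (abs_le.1 (count_class N (64 * N) q 1 (by omega) (by omega))).1
    have g2 : (((64 * N : ℕ) : ℝ) - N) / q = 63 * ((N : ℝ) / q) := by push_cast; ring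
    have g3 : 1 ≤ (N : ℝ) / q := by
      rw [le_div_iff₀ (by linarith)]
      linarith
    rw [g2] at g1
    unfold Om
    linarith
  have hG0 : 0 < (N : ℝ) / q := by positivity
  have hb10 : (1 / 2 : ℝ) ^ b ≤ 1 / 1024 := by
    calc (1 / 2 : ℝ) ^ b ≤ (1 / 2 : ℝ) ^ 10 :=
          pow_le_pow_of_le_one (by norm_num) (by norm_num) (by omega)
      _ = 1 / 1024 := by norm_num
  have hb0 : 0 ≤ (1 / 2 : ℝ) ^ b := by positivity
  have hErC : 0 ≤ C * (N : ℝ) ^ (1 - η / 2) := by positivity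
  -- counting
  obtain ⟨V, hV1, hV2, hV3⟩ := app C0 b (by omega) FL q N Y (by omega) hN1 hqz hY 0 (by simp) 0
    (C * (N : ℝ) ^ (1 - η / 2)) (fun d _ _ _ => by rw [norm_zero, zero_mul]; exact hErC)
  have hV0 : 0 < V := lt_of_lt_of_le (by positivity) hV1
  simp only [zero_mul, Complex.zero_re, add_zero, sum_const, nsmul_eq_mul, mul_one] at hV3
  set G : ℝ := ((Om q N).card : ℝ) * V with hG
  have hG1 : 0 < G := mul_pos (lt_of_lt_of_le hG0 hOm) hV0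
  have hErrG : 2 * Y * ((Y : ℝ) ^ (2 * (C0 * b)) * (2 + C * (N : ℝ) ^ (1 - η / 2))) ≤
      1 / 1024 * G := by
    refine hErr.trans ?_
    rw [mul_assoc]
    refine mul_le_mul_of_nonneg_left ?_ (by norm_num)
    exact mul_le_mul hOm hV1 (by positivity) (Nat.cast_nonneg _)
  have hcard : 1022 / 1024 * G ≤ ((RV q Y N).card : ℝ) := by
    have g1 := (abs_le.1 hV3).1
    have g2 : (1 / 2 : ℝ) ^ b * G ≤ 1 / 1024 * G := mul_le_mul_of_nonneg_right hb10 hG1.le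
    linarith
  have hcard0 : (0 : ℝ) < ((RV q Y N).card : ℝ) := by linarith
  refine ⟨by exact_mod_cast hcard0, ?_⟩
  intro ξ hξ1 hξ2
  have hT1 : 1 ≤ |ξ| := by nlinarith
  set S : ℂ := ∑ m ∈ RV q Y N, e (Real.log (m : ℝ) * ξ) with hS
  rcases eq_or_ne S 0 with hS0 | hS0
  · rw [hS0, norm_zero]
    positivity
  set z : ℂ := (starRingEnd ℂ) S / ‖S‖ with hz
  have hSn : 0 < ‖S‖ := norm_pos_iff.2 hS0
  have hz1 : ‖z‖ = 1 := by
    rw [hz, norm_div, Complex.norm_conj, Complex.norm_real, norm_norm, div_self hSn.ne']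
  have hzS : (z * S).re = ‖S‖ := by
    have : z * S = ((‖S‖ : ℝ) : ℂ) := by
      rw [hz, div_mul_eq_mul_div, mul_comm, Complex.mul_conj, Complex.normSq_eq_norm_sq]
      have : (‖S‖ : ℂ) ≠ 0 := by exact_mod_cast hSn.ne'
      field_simp
      push_cast
      ring
    rw [this, Complex.ofReal_re]
  obtain ⟨V', hV1', hV2', hV3'⟩ := app C0 b (by omega) FL q N Y (by omega) hN1 hqz hY z hz1.le ξ
    (C * (N : ℝ) ^ (1 - η / 2)) (fun d hd hqd hdY => by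
      rw [hz1, one_mul]
      exact hb1 N d ξ hd hqd (hdN d hdY) hT1 hξ2)
  have hVV : V' = V := by rw [hV2', hV2]
  rw [hVV] at hV3'
  have hsum : ∀ R : Finset ℕ, ∑ m ∈ R, (1 + (z * e (Real.log (m : ℝ) * ξ)).re) =
      (R.card : ℝ) + (z * ∑ m ∈ R, e (Real.log (m : ℝ) * ξ)).re := by
    intro R
    rw [sum_add_distrib, mul_sum, Complex.re_sum]
    simp
  rw [hsum, hsum, ← hS, hzS] at hV3'
  set A : ℝ := ((Om q N).card : ℝ) + (z * ∑ m ∈ Om q N, e (Real.log (m : ℝ) * ξ)).re with hA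
  have hAle : A ≤ 65 / 64 * ((Om q N).card : ℝ) := by
    have g1 : (z * ∑ m ∈ Om q N, e (Real.log (m : ℝ) * ξ)).re ≤
        C * (N / |ξ| + (N : ℝ) ^ (1 - η / 2)) := by
      refine (Complex.re_le_norm _).trans ?_
      rw [norm_mul, hz1, one_mul]
      refine hb2 N ξ ?_ hT1 hξ2
      have := hdN 1 (Nat.one_le_pow _ _ (by omega))
      simpa using this
    have g2 : C * (N / |ξ|) ≤ 1 / 128 * (N / q) := by
      rw [mul_div_assoc', mul_div_assoc', div_le_div_iff₀ (by linarith) (by linarith)]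
      have k1 : 128 * q * (C + 1) ≤ |ξ| := hξ1
      have k2 : N * (128 * q * (C + 1)) ≤ N * |ξ| := mul_le_mul_of_nonneg_left k1 hN0.le
      have k3 : 0 ≤ (N : ℝ) * q := by positivity
      nlinarith
    have g3 : C * (N : ℝ) ^ (1 - η / 2) ≤ 1 / 128 * (N / q) := by
      rw [mul_div_assoc', le_div_iff₀ (by linarith)]
      have k1 : (128 * q * (C + 1)) * (N : ℝ) ^ (1 - η / 2) ≤
          (N : ℝ) ^ (η / 2) * (N : ℝ) ^ (1 - η / 2) := mul_le_mul_of_nonneg_right h2 (hxp _).le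
      rw [hxa] at k1
      have k2 : η / 2 + (1 - η / 2) = 1 := by ring
      rw [k2, Real.rpow_one] at k1
      have k3 : 0 ≤ q * (N : ℝ) ^ (1 - η / 2) := by positivity
      nlinarith
    rw [hA]
    linarith
  have hAG : A * V ≤ 65 / 64 * G := by
    have := mul_le_mul_of_nonneg_right hAle hV0.le
    rw [hG]
    linarith
  have hub := (abs_le.1 hV3').2
  have hbb : (1 / 2 : ℝ) ^ b * (A * V) ≤ 1 / 1024 * (65 / 64 * G) :=
    calc (1 / 2 : ℝ) ^ b * (A * V) ≤ (1 / 2 : ℝ) ^ b * (65 / 64 * G) :=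
          mul_le_mul_of_nonneg_left hAG hb0
      _ ≤ 1 / 1024 * (65 / 64 * G) := mul_le_mul_of_nonneg_right hb10 (by positivity)
  linarith

end Pool.Agent.W5h75.SU
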