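import Mathlib
import Pool.Agent.H661R3.OP.PAP

/-!
Primes that are `1` modulo `q` in every interval `(x, (1 + ε) x]`.
-/

set_option autoImplicit false

open Finset Filter Topology Asymptotics

namespace Pool.Agent.W5h75.SU

theorem prime_short (q : ℕ) (hq : 0 < q) (ε : ℝ) (hε : 0 < ε) : ∃ X₀ : ℝ, ∀ x : ℝ, X₀ ≤ x →
    ∃ p : ℕ, p.Prime ∧ x < p ∧ (p : ℝ) ≤ (1 + ε) * x ∧ p ≡ 1 [MOD q] := by
  have : NeZero q := ⟨hq.ne'⟩
  set φ : ℝ := (q.totient : ℝ) with hφ
  have hφ0 : 0 < φ := by
    have : 0 < q.totient := Nat.totient_pos.2 hq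
    rw [hφ]
    exact_mod_cast this
  set S : ℝ → ℝ := fun x => ∑ k ∈ Finset.Icc 1 ⌊x⌋₊,
      ArithmeticFunction.vonMangoldt.residueClass (1 : ZMod q) k with hS
  have h1 : Tendsto (fun x => S x / x) atTop (𝓝 φ⁻¹) := by
    have := Pool.Agent.Helper923.H403.PNT602.pnt_residueClass (q := q) (a := 1) isUnit_one
    simpa [hS, hφ] using this
  set τ : ℝ := ε / (4 * φ * (2 + ε)) with hτ
  have hτ0 : 0 < τ := by positivity
  have h2 : ∀ᶠ x : ℝ in atTop, |S x / x - φ⁻¹| < τ := by
    have := h1.eventually (Metric.ball_mem_nhds (φ⁻¹) hτ0)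
    filter_upwards [this] with x hx
    rwa [Real.dist_eq] at hx
  -- size of the prime powers
  have h3 : ∀ᶠ x : ℝ in atTop, 2 * Real.sqrt x * Real.log x ≤ ε / (4 * φ * (1 + ε)) * x := by
    have e1 : (fun x : ℝ => Real.log x) =o[atTop] (fun x => x ^ (1 / 2 : ℝ)) :=
      isLittleO_log_rpow_atTop (by norm_num)
    have e2 := e1.bound (c := ε / (8 * φ * (1 + ε))) (by positivity)
    filter_upwards [e2, eventually_gt_atTop 1] with x hx hx1
    have hx0 : 0 < x := by linarith
    have h4 := (le_abs_self _).trans hx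
    simp only [Real.norm_eq_abs] at h4
    rw [abs_of_pos (by positivity : 0 < x ^ (1 / 2 : ℝ)), ← Real.sqrt_eq_rpow] at h4
    have h5 : 0 < Real.sqrt x := Real.sqrt_pos.2 hx0
    have h6 := Real.mul_self_sqrt hx0.le
    calc 2 * Real.sqrt x * Real.log x ≤ 2 * Real.sqrt x * (ε / (8 * φ * (1 + ε)) * Real.sqrt x) :=
          mul_le_mul_of_nonneg_left h4 (by positivity)
      _ = 2 * (ε / (8 * φ * (1 + ε))) * (Real.sqrt x * Real.sqrt x) := by ring
      _ = ε / (4 * φ * (1 + ε)) * x := by rw [h6]; field_simp; ring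
  have hy : Tendsto (fun x : ℝ => (1 + ε) * x) atTop atTop :=
    tendsto_id.const_mul_atTop (by linarith)
  obtain ⟨X₀, hX₀⟩ := eventually_atTop.1 (h2.and ((hy.eventually h2).and ((hy.eventually h3).and
    (eventually_gt_atTop 1))))
  refine ⟨X₀, fun x hx => ?_⟩
  obtain ⟨a1, a2, a3, a4⟩ := hX₀ x hx
  have hx0 : 0 < x := by linarith
  set y : ℝ := (1 + ε) * x with hyd
  have hxy : x ≤ y := by nlinarith
  have hy0 : 0 < y := by linarith
  by_contra hno
  push Not at hno
  have hfl : ⌊x⌋₊ ≤ ⌊y⌋₊ := Nat.floor_le_floor hxy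
  have hup : S y ≤ S x + (Chebyshev.psi y - Chebyshev.theta y) := by
    rw [Chebyshev.psi_sub_theta_eq_sum_not_prime]
    have e1 : S x = ∑ k ∈ Finset.Icc 1 ⌊y⌋₊,
        if k ≤ ⌊x⌋₊ then ArithmeticFunction.vonMangoldt.residueClass (1 : ZMod q) k else 0 := by
      simp only [hS]
      rw [← Finset.sum_filter]
      apply Finset.sum_congr _ fun _ _ => rfl
      ext k
      simp only [Finset.mem_filter, Finset.mem_Icc]
      constructor
      · rintro ⟨a, b⟩
        exact ⟨⟨a, b.trans hfl⟩, b⟩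
      · rintro ⟨⟨a, _⟩, b⟩
        exact ⟨a, b⟩
    have e2 : (∑ k ∈ Finset.Ioc 0 ⌊y⌋₊ with ¬ k.Prime, ArithmeticFunction.vonMangoldt k) =
        ∑ k ∈ Finset.Icc 1 ⌊y⌋₊, if ¬ k.Prime then ArithmeticFunction.vonMangoldt k else 0 := by
      rw [Finset.sum_filter]
      rfl
    rw [e1, e2, ← Finset.sum_add_distrib]
    refine Finset.sum_le_sum fun k hk => ?_
    rw [Finset.mem_Icc] at hk
    have hle := ArithmeticFunction.vonMangoldt.residueClass_le (1 : ZMod q) k
    have h0 : (0 : ℝ) ≤ ArithmeticFunction.vonMangoldt k := ArithmeticFunction.vonMangoldt_nonneg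
    by_cases hkY : k ≤ ⌊x⌋₊
    · rw [if_pos hkY]
      split_ifs <;> linarith
    · rw [if_neg hkY]
      by_cases hkp : k.Prime
      · have hkx : x < k := by
          push Not at hkY
          exact (Nat.floor_lt hx0.le).1 hkY
        have hky : (k : ℝ) ≤ y := (Nat.le_floor_iff hy0.le).1 hk.2
        have h5 := hno k hkp hkx hky
        have h6 : ArithmeticFunction.vonMangoldt.residueClass (1 : ZMod q) k = 0 := by
          unfold ArithmeticFunction.vonMangoldt.residueClass
          rw [Set.indicator_of_notMem]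
          intro h7
          apply h5
          have h8 : (k : ZMod q) = ((1 : ℕ) : ZMod q) := by
            rw [Nat.cast_one]
            exact h7
          exact (ZMod.natCast_eq_natCast_iff _ _ _).1 h8
        rw [h6]
        split_ifs <;> linarith
      · rw [if_pos hkp]
        linarith
  have hdiff := (le_abs_self _).trans (Chebyshev.abs_psi_sub_theta_le_sqrt_mul_log (by linarith : 1 ≤ y))
  -- lower bound for the difference
  have b1 : S x < (φ⁻¹ + τ) * x := by
    have := (abs_lt.1 a1).2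
    rw [sub_lt_iff_lt_add', div_lt_iff₀ hx0] at this
    linarith
  have b2 : (φ⁻¹ - τ) * y < S y := by
    have := (abs_lt.1 a2).1
    have h : φ⁻¹ - τ < S y / y := by linarith
    rwa [lt_div_iff₀ hy0] at h
  have b3 : (φ⁻¹ - τ) * y - (φ⁻¹ + τ) * x = (ε / φ - τ * (2 + ε)) * x := by
    rw [hyd, inv_eq_one_div]
    ring
  have b4 : τ * (2 + ε) = ε / (4 * φ) := by
    rw [hτ]; field_simp
  have b5 : ε / (4 * φ * (1 + ε)) * y = ε / (4 * φ) * x := by
    rw [hyd]; field_simp
  rw [b5] at a3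
  rw [b4] at b3
  have b6 : (ε / φ - ε / (4 * φ)) * x = 3 * (ε / (4 * φ) * x) := by
    field_simp
    ring
  have b7 : 0 < ε / (4 * φ) * x := by positivity
  rw [b6] at b3
  linarith

end Pool.Agent.W5h75.SU
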