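import Mathlib
import Pool.Agent.W5h75.SU.RoughExp
import Pool.Agent.W5h75.SU.Short

/-!
A probability measure on the rough numbers for which the twisted sums are bounded away from one.
-/

set_option autoImplicit false

open Finset

namespace Pool.Agent.W5h75.SU

open Pool.Agent.H469R2.NK (e norm_e e_add e_zero conj_e)
open Pool.Agent.H661R3.OP (t_PAP)

/-- the sign -/
noncomputable def sg (m : ℕ) : ℝ := (-1) ^ (ArithmeticFunction.cardFactors m)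

lemma sg_sq (m : ℕ) : sg m * sg m = 1 := by
  unfold sg
  rw [← mul_pow]
  norm_num

lemma sg_abs (m : ℕ) : |sg m| = 1 := by
  unfold sg
  rw [abs_pow, abs_neg, abs_one, one_pow]

lemma sg_mul (m n : ℕ) (hm : m ≠ 0) (hn : n ≠ 0) : sg (m * n) = sg m * sg n := by
  unfold sg
  rw [ArithmeticFunction.cardFactors_mul hm hn, pow_add]

lemma sg_prime (p : ℕ) (hp : p.Prime) : sg p = -1 := by
  unfold sg
  rw [ArithmeticFunction.cardFactors_apply_prime hp, pow_one]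

/-- twisting by signs -/
theorem twist (R : Finset ℕ) (ξ : ℝ)
    (h : ‖∑ m ∈ R, e (Real.log (m : ℝ) * (2 * ξ))‖ ≤ 1 / 8 * (R.card : ℝ)) :
    ‖∑ m ∈ R, (sg m : ℂ) * e (Real.log (m : ℝ) * ξ)‖ ≤ 3 / 4 * (R.card : ℝ) := by
  set S : ℂ := ∑ m ∈ R, (sg m : ℂ) * e (Real.log (m : ℝ) * ξ) with hS
  rcases eq_or_ne S 0 with hS0 | hS0
  · rw [hS0, norm_zero]
    positivity
  set u : ℂ := (starRingEnd ℂ) S / ‖S‖ with hu
  have hSn : 0 < ‖S‖ := norm_pos_iff.2 hS0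
  have hu1 : ‖u‖ = 1 := by
    rw [hu, norm_div, Complex.norm_conj, Complex.norm_real, norm_norm, div_self hSn.ne']
  have huS : (u * S).re = ‖S‖ := by
    have : u * S = ((‖S‖ : ℝ) : ℂ) := by
      rw [hu, div_mul_eq_mul_div, mul_comm, Complex.mul_conj, Complex.normSq_eq_norm_sq]
      have : (‖S‖ : ℂ) ≠ 0 := by exact_mod_cast hSn.ne'
      field_simp
      push_cast
      ring
    rw [this, Complex.ofReal_re]
  set ζ : ℕ → ℂ := fun m => u * ((sg m : ℂ) * e (Real.log (m : ℝ) * ξ)) with hζ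
  have hζ1 : ∀ m, ‖ζ m‖ = 1 := by
    intro m
    simp only [hζ]
    rw [norm_mul, norm_mul, hu1, norm_e, Complex.norm_real, Real.norm_eq_abs, sg_abs]
    norm_num
  have hre : ∀ z : ℂ, ‖z‖ = 1 → z.re ^ 2 = (1 + (z ^ 2).re) / 2 := by
    intro z hz
    have h1 : z.re ^ 2 + z.im ^ 2 = 1 := by
      have := Complex.normSq_eq_norm_sq z
      rw [hz, Complex.normSq_apply] at this
      nlinarith
    have h2 : (z ^ 2).re = z.re ^ 2 - z.im ^ 2 := by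
      rw [sq, Complex.mul_re]
      ring
    rw [h2]
    linarith
  have h1 : ‖S‖ = ∑ m ∈ R, (ζ m).re := by
    rw [← huS, hS, mul_sum, Complex.re_sum]
  have h2 : (∑ m ∈ R, (ζ m).re) ^ 2 ≤ R.card * ∑ m ∈ R, (ζ m).re ^ 2 := sq_sum_le_card_mul_sum_sq
  have h3 : ∑ m ∈ R, (ζ m).re ^ 2 = ((R.card : ℝ) +
      (u ^ 2 * ∑ m ∈ R, e (Real.log (m : ℝ) * (2 * ξ))).re) / 2 := by
    have e1 : ∀ m ∈ R, (ζ m).re ^ 2 = (1 + (u ^ 2 * e (Real.log (m : ℝ) * (2 * ξ))).re) / 2 := by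
      intro m _
      rw [hre (ζ m) (hζ1 m)]
      have e2 : (ζ m) ^ 2 = u ^ 2 * e (Real.log (m : ℝ) * (2 * ξ)) := by
        simp only [hζ]
        have e3 : e (Real.log (m : ℝ) * (2 * ξ)) = e (Real.log (m : ℝ) * ξ) * e (Real.log (m : ℝ) * ξ) := by
          rw [← e_add]
          congr 1
          ring
        have e4 : (sg m : ℂ) * (sg m : ℂ) = 1 := by
          exact_mod_cast sg_sq m
        rw [e3]
        calc (u * ((sg m : ℂ) * e (Real.log (m : ℝ) * ξ))) ^ 2 =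
            u ^ 2 * (((sg m : ℂ) * (sg m : ℂ)) * (e (Real.log (m : ℝ) * ξ) *
              e (Real.log (m : ℝ) * ξ))) := by ring
          _ = _ := by rw [e4, one_mul]
      rw [e2]
    rw [sum_congr rfl e1, ← sum_div, sum_add_distrib, mul_sum, Complex.re_sum]
    simp
  have h4 : (u ^ 2 * ∑ m ∈ R, e (Real.log (m : ℝ) * (2 * ξ))).re ≤ 1 / 8 * (R.card : ℝ) := by
    refine (Complex.re_le_norm _).trans ?_
    rw [norm_mul, norm_pow, hu1, one_pow, one_mul]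
    exact h
  have hc : (0 : ℝ) ≤ R.card := Nat.cast_nonneg _
  have h5 : ‖S‖ ^ 2 ≤ (3 / 4 * (R.card : ℝ)) ^ 2 := by
    rw [h1]
    refine h2.trans ?_
    rw [h3]
    nlinarith
  exact (abs_le_of_sq_le_sq' h5 (mul_nonneg (by norm_num) hc)).2

theorem mult (C0 : ℕ) (FL : FL1 C0) (q Qe : ℕ) (hq : 2 ≤ q) (hQe : 1 ≤ Qe)
    (hqz : ∀ p : ℕ, p.Prime → p ≤ C0 → p ∣ q) :
    ∃ δ : ℝ, 0 < δ ∧ ∃ N₀ Y₀ : ℕ, ∀ N Y : ℕ, N₀ ≤ N → Y₀ ≤ Y → (Y : ℝ) ≤ (N : ℝ) ^ δ →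
      ∃ w : ℕ → ℝ, (∀ m, 0 ≤ w m) ∧ ∑ m ∈ RV q Y N, w m = 1 ∧
        ∀ ξ : ℝ, |ξ| ≤ (N : ℝ) ^ Qe / 2 →
        ‖∑ m ∈ RV q Y N, ((w m * sg m : ℝ) : ℂ) * e (Real.log (m : ℝ) * ξ)‖ ≤ 7 / 8 := by
  classical
  obtain ⟨δ, hδ, T₁, hT₁, N₀, H⟩ := rough_exp C0 FL q Qe hq hQe hqz
  obtain ⟨Y₁, hY₁⟩ := t_PAP q (by omega)
  have hT0 : 0 < T₁ := by linarith
  set ε : ℝ := 1 / (4 * T₁) with hε
  have hε0 : 0 < ε := by positivity
  have hε1 : ε ≤ 1 := by
    rw [hε, div_le_one (by positivity)]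
    linarith
  obtain ⟨X₀, hX₀⟩ := prime_short q (by omega) ε hε0
  set X₁ : ℝ := max 1 X₀ with hX₁
  have hX1 : 1 ≤ X₁ := le_max_left _ _
  refine ⟨min δ (1 / 8), lt_min hδ (by norm_num), max N₀ ⌈X₁ ^ 2⌉₊, max Y₁ 3, ?_⟩
  intro N Y hN hY hYN
  have hNN : N₀ ≤ N := (le_max_left _ _).trans hN
  have hYY : Y₁ ≤ Y := (le_max_left _ _).trans hY
  have hY3 : 3 ≤ Y := (le_max_right _ _).trans hY
  have hY3r : (3 : ℝ) ≤ Y := by exact_mod_cast hY3
  have hNX : X₁ ^ 2 ≤ N := (Nat.le_ceil _).trans (by exact_mod_cast (le_max_right _ _).trans hN)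
  have hNr : (1 : ℝ) ≤ N := by nlinarith
  have hN0 : (0 : ℝ) < N := by linarith
  have hYδ : (Y : ℝ) ≤ (N : ℝ) ^ δ :=
    hYN.trans (Real.rpow_le_rpow_of_exponent_le hNr (min_le_left _ _))
  have hY8 : (Y : ℝ) ^ 8 ≤ N := by
    calc (Y : ℝ) ^ 8 ≤ ((N : ℝ) ^ (1 / 8 : ℝ)) ^ 8 :=
          pow_le_pow_left₀ (by linarith)
            (hYN.trans (Real.rpow_le_rpow_of_exponent_le hNr (min_le_right _ _))) 8
      _ = N := by
        rw [← Real.rpow_natCast, ← Real.rpow_mul hN0.le]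
        norm_num
  obtain ⟨hcard, hexp⟩ := H N Y hNN hY3 hYδ
  set R : Finset ℕ := RV q Y N with hR
  have hcr : (0 : ℝ) < (R.card : ℝ) := by exact_mod_cast hcard
  -- the two special elements
  obtain ⟨p₁, hp₁, h11, h12, h13⟩ := hY₁ Y hYY
  have hp₁q : p₁ ≡ 1 [MOD q] := by
    have h : (1 : ℤ) ≡ (p₁ : ℤ) [ZMOD q] := Int.modEq_iff_dvd.2 h13
    exact (Int.natCast_modEq_iff.1 (by exact_mod_cast h)).symm
  have hp₁r : (p₁ : ℝ) ≤ (Y : ℝ) ^ 2 := by exact_mod_cast h12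
  have hp₁0 : (0 : ℝ) < p₁ := by exact_mod_cast hp₁.pos
  have hYsq : X₁ * (Y : ℝ) ^ 3 ≤ 4 * N := by
    have hY4 : (Y : ℝ) ^ 3 ≤ (Y : ℝ) ^ 4 := pow_le_pow_right₀ (by linarith) (by norm_num)
    have h1 : ((Y : ℝ) ^ 4) ^ 2 ≤ N := by
      rw [← pow_mul]; exact hY8
    have h2 : 0 ≤ (Y : ℝ) ^ 4 := by positivity
    nlinarith [sq_nonneg (X₁ - (Y : ℝ) ^ 4)]
  have hbase : X₁ * Y ≤ 4 * N / p₁ := by
    rw [le_div_iff₀ hp₁0]
    have : X₁ * Y * p₁ ≤ X₁ * Y * (Y : ℝ) ^ 2 :=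
      mul_le_mul_of_nonneg_left hp₁r (by positivity)
    have e1 : X₁ * Y * (Y : ℝ) ^ 2 = X₁ * (Y : ℝ) ^ 3 := by ring
    linarith
  obtain ⟨p₂, hp₂, h21, h22, h23⟩ := hX₀ (4 * N / p₁) (by
    have : X₁ ≤ X₁ * Y := le_mul_of_one_le_right (by linarith) (by linarith)
    exact (le_max_right _ _).trans (this.trans hbase))
  obtain ⟨p₃, hp₃, h31, h32, h33⟩ := hX₀ (4 * N) (by
    have h1 : X₀ ≤ X₁ := le_max_right _ _
    nlinarith)
  have hp₂Y : (Y : ℝ) < p₂ := by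
    have : (Y : ℝ) ≤ X₁ * Y := le_mul_of_one_le_left (by linarith) hX1
    linarith
  have hV1 : 4 * (N : ℝ) < p₁ * p₂ := by
    rw [div_lt_iff₀ hp₁0] at h21
    linarith
  have hV2 : (p₁ : ℝ) * p₂ ≤ (1 + ε) * (4 * N) := by
    have := mul_le_mul_of_nonneg_left h22 hp₁0.le
    have e1 : (p₁ : ℝ) * ((1 + ε) * (4 * N / p₁)) = (1 + ε) * (4 * N) := by field_simp
    linarith
  have ha : p₃ ∈ R := by
    rw [hR, RV, mem_filter, Om, mem_filter, mem_Ico]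
    have g1 : (N : ℝ) ≤ p₃ := by linarith
    have g2 : (p₃ : ℝ) < 64 * N := by nlinarith
    refine ⟨⟨⟨by exact_mod_cast g1, by exact_mod_cast g2⟩, h33⟩, fun p hp hpY hd => ?_⟩
    have hpp := (Nat.prime_dvd_prime_iff_eq hp hp₃).1 hd
    have : (p₃ : ℝ) ≤ Y := by
      rw [← hpp]
      exact_mod_cast hpY
    have hY1 : (Y : ℝ) ≤ (Y : ℝ) ^ 8 := le_self_pow₀ (by linarith) (by norm_num)
    linarith
  have hb : p₁ * p₂ ∈ R := by
    rw [hR, RV, mem_filter, Om, mem_filter, mem_Ico]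
    have g1 : (N : ℝ) ≤ ((p₁ * p₂ : ℕ) : ℝ) := by push_cast; linarith
    have g2 : ((p₁ * p₂ : ℕ) : ℝ) < 64 * N := by push_cast; nlinarith
    refine ⟨⟨⟨by exact_mod_cast g1, by exact_mod_cast g2⟩, hp₁q.mul h23⟩, fun p hp hpY hd => ?_⟩
    rcases (Nat.Prime.dvd_mul hp).1 hd with h | h
    · have hpp := (Nat.prime_dvd_prime_iff_eq hp hp₁).1 h
      omega
    · have hpp := (Nat.prime_dvd_prime_iff_eq hp hp₂).1 h
      have : (p₂ : ℝ) ≤ Y := by
        rw [← hpp]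
        exact_mod_cast hpY
      linarith
  set w : ℕ → ℝ := fun m => 1 / (2 * (R.card : ℝ)) + (if m = p₃ then 1 / 4 else 0) +
    (if m = p₁ * p₂ then 1 / 4 else 0) with hw
  refine ⟨w, fun m => ?_, ?_, ?_⟩
  · simp only [hw]
    have : 0 ≤ 1 / (2 * (R.card : ℝ)) := by positivity
    split_ifs <;> linarith
  · simp only [hw]
    rw [sum_add_distrib, sum_add_distrib, sum_const, sum_ite_eq' R p₃, sum_ite_eq' R (p₁ * p₂),
      if_pos ha, if_pos hb, nsmul_eq_mul]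
    field_simp
    norm_num
  intro ξ hξ
  set f : ℕ → ℂ := fun m => (sg m : ℂ) * e (Real.log (m : ℝ) * ξ) with hf
  have hf1 : ∀ m, ‖f m‖ = 1 := by
    intro m
    simp only [hf]
    rw [norm_mul, norm_e, Complex.norm_real, Real.norm_eq_abs, sg_abs, one_mul]
  have hsum : ∑ m ∈ R, ((w m * sg m : ℝ) : ℂ) * e (Real.log (m : ℝ) * ξ) =
      (1 / (2 * (R.card : ℂ))) * ∑ m ∈ R, f m + (1 / 4) * (f p₃ + f (p₁ * p₂)) := by
    have e1 : ∀ m ∈ R, ((w m * sg m : ℝ) : ℂ) * e (Real.log (m : ℝ) * ξ) =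
        (1 / (2 * (R.card : ℂ))) * f m + (if m = p₃ then (1 / 4) * f m else 0) +
          (if m = p₁ * p₂ then (1 / 4) * f m else 0) := by
      intro m _
      simp only [hw, hf]
      split_ifs <;> push_cast <;> ring
    rw [sum_congr rfl e1, sum_add_distrib, sum_add_distrib, sum_ite_eq' R p₃,
      sum_ite_eq' R (p₁ * p₂), if_pos ha, if_pos hb, ← mul_sum]
    ring
  rw [hsum]
  refine (norm_add_le _ _).trans ?_
  have n1 : ‖(1 / (2 * (R.card : ℂ))) * ∑ m ∈ R, f m‖ =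
      1 / (2 * (R.card : ℝ)) * ‖∑ m ∈ R, f m‖ := by
    rw [norm_mul, norm_div, norm_one, norm_mul, Complex.norm_natCast, Complex.norm_ofNat]
  have n2 : ‖(1 / 4 : ℂ) * (f p₃ + f (p₁ * p₂))‖ = 1 / 4 * ‖f p₃ + f (p₁ * p₂)‖ := by
    rw [norm_mul, norm_div, norm_one, Complex.norm_ofNat]
  rw [n1, n2]
  rcases le_total T₁ (2 * |ξ|) with h | h
  · -- large phases
    have h2ξ : |2 * ξ| = 2 * |ξ| := by rw [abs_mul, abs_two]
    have k1 := twist R ξ (hexp (2 * ξ) (by rw [h2ξ]; exact h) (by rw [h2ξ]; linarith))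
    have k2 : 1 / (2 * (R.card : ℝ)) * ‖∑ m ∈ R, f m‖ ≤ 3 / 8 := by
      rw [one_div, inv_mul_le_iff₀ (by positivity)]
      linarith
    have k3 : ‖f p₃ + f (p₁ * p₂)‖ ≤ 2 := by
      refine (norm_add_le _ _).trans ?_
      rw [hf1, hf1]
      norm_num
    linarith
  · -- small phases
    have k2 : 1 / (2 * (R.card : ℝ)) * ‖∑ m ∈ R, f m‖ ≤ 1 / 2 := by
      rw [one_div, inv_mul_le_iff₀ (by positivity)]
      have : ‖∑ m ∈ R, f m‖ ≤ R.card := by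
        refine (norm_sum_le _ _).trans ?_
        simp only [hf1]
        simp
      linarith
    have k3 : ‖f p₃ + f (p₁ * p₂)‖ ≤ 1 := by
      have e1 : f p₃ + f (p₁ * p₂) = e (Real.log ((p₁ * p₂ : ℕ) : ℝ) * ξ) -
          e (Real.log (p₃ : ℝ) * ξ) := by
        simp only [hf]
        rw [sg_mul p₁ p₂ hp₁.ne_zero hp₂.ne_zero, sg_prime p₁ hp₁, sg_prime p₂ hp₂,
          sg_prime p₃ hp₃]
        push_cast
        ring
      rw [e1]
      refine (e_diff _ _).trans ?_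
      have e2 : Real.log ((p₁ * p₂ : ℕ) : ℝ) * ξ - Real.log (p₃ : ℝ) * ξ =
          (Real.log ((p₁ * p₂ : ℕ) : ℝ) - Real.log (p₃ : ℝ)) * ξ := by ring
      rw [e2, abs_mul]
      have e3 : |Real.log ((p₁ * p₂ : ℕ) : ℝ) - Real.log (p₃ : ℝ)| ≤ ε := by
        have hlog : ∀ v : ℝ, 4 * N < v → v ≤ (1 + ε) * (4 * N) →
            Real.log (4 * N) ≤ Real.log v ∧ Real.log v ≤ Real.log (4 * N) + ε := by
          intro v hv1 hv2
          have hv0 : (0 : ℝ) < 4 * N := by positivity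
          refine ⟨Real.log_le_log hv0 hv1.le, ?_⟩
          have g1 := Real.log_le_log (by linarith) hv2
          rw [Real.log_mul (by positivity) hv0.ne'] at g1
          have g2 : Real.log (1 + ε) ≤ ε := by
            have := Real.log_le_sub_one_of_pos (by positivity : (0 : ℝ) < 1 + ε)
            linarith
          linarith
        have g1 := hlog ((p₁ * p₂ : ℕ) : ℝ) (by push_cast; exact hV1) (by push_cast; exact hV2)
        have g2 := hlog (p₃ : ℝ) h31 h32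
        rw [abs_le]
        constructor <;> linarith [g1.1, g1.2, g2.1, g2.2]
      have hpi := Real.pi_lt_d2
      have hpi0 := Real.pi_pos
      have e4 : |Real.log ((p₁ * p₂ : ℕ) : ℝ) - Real.log (p₃ : ℝ)| * |ξ| ≤ ε * (T₁ / 2) :=
        mul_le_mul e3 (by linarith) (abs_nonneg _) hε0.le
      have e5 : ε * (T₁ / 2) = 1 / 8 := by rw [hε]; field_simp; norm_num
      rw [e5] at e4
      nlinarith
    linarith

end Pool.Agent.W5h75.SU
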