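import Mathlib
import Pool.Agent.W5h75.SU.Mult

/-!
The averaging operator and its iterates.
-/

set_option autoImplicit false

open Finset MeasureTheory FourierTransform

namespace Pool.Agent.W5h75.SU

open Pool.Agent.H469R2.NK (e norm_e e_add e_zero conj_e)
open Pool.Agent.H438R2.DL (planch bx bx_int bx_L2 fourier_bx J J_decay e_cont)

/-- the averaging operator -/
noncomputable def Tp (R : Finset ℕ) (c : ℕ → ℂ) (f : ℝ → ℂ) : ℝ → ℂ :=
  fun u => ∑ m ∈ R, c m * f (u + Real.log (m : ℝ))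

lemma Tp_int (R : Finset ℕ) (c : ℕ → ℂ) (f : ℝ → ℂ) (hf : Integrable f) :
    Integrable (Tp R c f) := by
  unfold Tp
  exact integrable_finsetSum _ fun m _ => (hf.comp_add_right _).const_mul _

lemma Tp_L2 (R : Finset ℕ) (c : ℕ → ℂ) (f : ℝ → ℂ) (hf : MemLp f 2) :
    MemLp (Tp R c f) 2 := by
  unfold Tp
  refine memLp_finsetSum _ fun m _ => ?_
  have := hf.comp_measurePreserving (measurePreserving_add_right volume (Real.log (m : ℝ)))
  exact this.const_mul (c m)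

lemma fourier_e (f : ℝ → ℂ) (ξ : ℝ) : 𝓕 f ξ = ∫ v, e (-(v * ξ)) * f v := by
  rw [Real.fourier_real_eq_integral_exp_smul]
  congr 1
  funext v
  unfold e
  rw [smul_eq_mul]
  congr 3
  push_cast
  ring

lemma e_neg_cont (ξ : ℝ) : Continuous (fun v : ℝ => e (-(v * ξ))) :=
  e_cont.comp (by fun_prop)

lemma Tp_fourier (R : Finset ℕ) (c : ℕ → ℂ) (f : ℝ → ℂ) (hf : Integrable f) (ξ : ℝ) :
    𝓕 (Tp R c f) ξ = (∑ m ∈ R, c m * e (Real.log (m : ℝ) * ξ)) * 𝓕 f ξ := by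
  rw [fourier_e, fourier_e]
  unfold Tp
  have h1 : ∀ v : ℝ, e (-(v * ξ)) * ∑ m ∈ R, c m * f (v + Real.log (m : ℝ)) =
      ∑ m ∈ R, c m * (e (-(v * ξ)) * f (v + Real.log (m : ℝ))) := by
    intro v
    rw [mul_sum]
    exact sum_congr rfl fun m _ => by ring
  simp only [h1]
  rw [integral_finsetSum, sum_mul]
  · refine sum_congr rfl fun m _ => ?_
    rw [integral_const_mul, mul_assoc]
    congr 1
    have h2 := integral_add_right_eq_self (μ := volume)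
      (fun v : ℝ => e (-((v - Real.log (m : ℝ)) * ξ)) * f v) (Real.log (m : ℝ))
    simp only [add_sub_cancel_right] at h2
    rw [h2, ← integral_const_mul]
    congr 1
    funext v
    rw [← mul_assoc, ← e_add]
    congr 2
    ring
  · intro m _
    refine Integrable.const_mul ?_ _
    exact (hf.comp_add_right _).bdd_mul (c := 1) (e_neg_cont ξ).aestronglyMeasurable
      (Filter.Eventually.of_forall fun v => (norm_e _).le)

lemma iter_int (R : Finset ℕ) (c : ℕ → ℂ) (f : ℝ → ℂ) (hf : Integrable f) (k : ℕ) :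
    Integrable ((Tp R c)^[k] f) := by
  induction k with
  | zero => exact hf
  | succ k ih =>
    rw [Function.iterate_succ_apply']
    exact Tp_int R c _ ih

lemma iter_L2 (R : Finset ℕ) (c : ℕ → ℂ) (f : ℝ → ℂ) (hf : MemLp f 2) (k : ℕ) :
    MemLp ((Tp R c)^[k] f) 2 := by
  induction k with
  | zero => exact hf
  | succ k ih =>
    rw [Function.iterate_succ_apply']
    exact Tp_L2 R c _ ih

lemma iter_fourier (R : Finset ℕ) (c : ℕ → ℂ) (f : ℝ → ℂ) (hf : Integrable f) (k : ℕ) (ξ : ℝ) :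
    𝓕 ((Tp R c)^[k] f) ξ = (∑ m ∈ R, c m * e (Real.log (m : ℝ) * ξ)) ^ k * 𝓕 f ξ := by
  induction k with
  | zero => simp
  | succ k ih =>
    rw [Function.iterate_succ_apply', Tp_fourier R c _ (iter_int R c f hf k), ih]
    ring

/-- the tail of `1 / ξ ^ 2` -/
lemma tail (T : ℝ) (hT : 0 < T) :
    Integrable (fun ξ : ℝ => Set.indicator (Set.Ioi T) (fun x => x ^ (-2 : ℝ)) ξ +
      Set.indicator (Set.Ioi T) (fun x => x ^ (-2 : ℝ)) (-ξ)) ∧
    ∫ ξ : ℝ, (Set.indicator (Set.Ioi T) (fun x => x ^ (-2 : ℝ)) ξ +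
      Set.indicator (Set.Ioi T) (fun x => x ^ (-2 : ℝ)) (-ξ)) = 2 / T := by
  have h1 : Integrable (Set.indicator (Set.Ioi T) (fun x : ℝ => x ^ (-2 : ℝ))) := by
    rw [integrable_indicator_iff measurableSet_Ioi]
    exact integrableOn_Ioi_rpow_of_lt (by norm_num) hT
  have h2 : Integrable (fun ξ : ℝ => Set.indicator (Set.Ioi T) (fun x : ℝ => x ^ (-2 : ℝ)) (-ξ)) :=
    h1.comp_neg
  refine ⟨h1.add h2, ?_⟩
  rw [integral_add h1 h2, integral_neg_eq_self (Set.indicator (Set.Ioi T) (fun x : ℝ => x ^ (-2 : ℝ))),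
    integral_indicator measurableSet_Ioi, integral_Ioi_rpow_of_lt (by norm_num) hT]
  have : (-2 : ℝ) + 1 = -1 := by norm_num
  rw [this, Real.rpow_neg_one]
  field_simp
  norm_num

theorem plan (R : Finset ℕ) (w : ℕ → ℝ) (hw0 : ∀ m, 0 ≤ w m) (hw1 : ∑ m ∈ R, w m = 1)
    (ρ T : ℝ) (hT : 0 < T)
    (hl : ∀ ξ : ℝ, |ξ| ≤ T →
      ‖∑ m ∈ R, ((w m * sg m : ℝ) : ℂ) * e (Real.log (m : ℝ) * ξ)‖ ≤ ρ)
    (φ : ℝ → ℂ) (h1 : Integrable φ) (h2 : MemLp φ 2) (Bc : ℝ)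
    (hd : ∀ ξ : ℝ, T < |ξ| → ‖𝓕 φ ξ‖ ≤ Bc / |ξ|) (k : ℕ) :
    Integrable (fun u => ‖((Tp R (fun m => ((w m * sg m : ℝ) : ℂ)))^[k] φ) u‖ ^ 2) ∧
    ∫ u, ‖((Tp R (fun m => ((w m * sg m : ℝ) : ℂ)))^[k] φ) u‖ ^ 2 ≤
      (ρ ^ k) ^ 2 * (∫ u, ‖φ u‖ ^ 2) + Bc ^ 2 * (2 / T) := by
  set c : ℕ → ℂ := fun m => ((w m * sg m : ℝ) : ℂ) with hc
  have hi := iter_int R c φ h1 k
  have hL := iter_L2 R c φ h2 k
  have hsq : Integrable (fun u => ‖((Tp R c)^[k] φ) u‖ ^ 2) := by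
    have := hL.integrable_norm_pow (by norm_num)
    simpa using this
  refine ⟨hsq, ?_⟩
  obtain ⟨p1, p2⟩ := planch _ hi hL
  obtain ⟨q1, q2⟩ := planch φ h1 h2
  obtain ⟨t1, t2⟩ := tail T hT
  rw [← p2, ← q2, ← t2, ← integral_const_mul, ← integral_const_mul, ← integral_add
    (q1.const_mul _) (t1.const_mul _)]
  refine integral_mono p1 ((q1.const_mul _).add (t1.const_mul _)) fun ξ => ?_
  simp only
  rw [iter_fourier R c φ h1 k ξ, norm_mul, norm_pow, mul_pow]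
  have hone : ‖∑ m ∈ R, c m * e (Real.log (m : ℝ) * ξ)‖ ≤ 1 := by
    refine (norm_sum_le _ _).trans ?_
    rw [← hw1]
    refine sum_le_sum fun m _ => ?_
    rw [norm_mul, norm_e, mul_one, hc, Complex.norm_real, Real.norm_eq_abs, abs_mul, sg_abs,
      mul_one, abs_of_nonneg (hw0 m)]
  have hnn : 0 ≤ Set.indicator (Set.Ioi T) (fun x : ℝ => x ^ (-2 : ℝ)) ξ +
      Set.indicator (Set.Ioi T) (fun x : ℝ => x ^ (-2 : ℝ)) (-ξ) := by
    refine add_nonneg ?_ ?_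
    · exact Set.indicator_nonneg (fun x hx => Real.rpow_nonneg (by
        have : T < x := hx
        linarith) _) _
    · exact Set.indicator_nonneg (fun x hx => Real.rpow_nonneg (by
        have : T < x := hx
        linarith) _) _
  rcases le_or_gt |ξ| T with h | h
  · have h3 := hl ξ h
    have h4 : (‖∑ m ∈ R, c m * e (Real.log (m : ℝ) * ξ)‖ ^ k) ^ 2 ≤ (ρ ^ k) ^ 2 :=
      pow_le_pow_left₀ (by positivity) (pow_le_pow_left₀ (norm_nonneg _) h3 k) 2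
    have h5 := mul_le_mul_of_nonneg_right h4 (by positivity : 0 ≤ ‖𝓕 φ ξ‖ ^ 2)
    have h6 := mul_nonneg (sq_nonneg Bc) hnn
    linarith
  · have h3 : (‖∑ m ∈ R, c m * e (Real.log (m : ℝ) * ξ)‖ ^ k) ^ 2 ≤ 1 :=
      pow_le_one₀ (by positivity) (pow_le_one₀ (norm_nonneg _) hone)
    have hξ : 0 < |ξ| := by linarith
    have h4 : Set.indicator (Set.Ioi T) (fun x : ℝ => x ^ (-2 : ℝ)) ξ +
      Set.indicator (Set.Ioi T) (fun x : ℝ => x ^ (-2 : ℝ)) (-ξ) = 1 / |ξ| ^ 2 := by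
      have e1 : ∀ x : ℝ, 0 < x → x ^ (-2 : ℝ) = 1 / x ^ 2 := by
        intro x hx
        rw [Real.rpow_neg hx.le, one_div]
        norm_num
      rcases abs_cases ξ with ⟨h5, h6⟩ | ⟨h5, h6⟩
      · have m1 : ξ ∈ Set.Ioi T := by rw [← h5]; exact h
        have m2 : -ξ ∉ Set.Ioi T := by
          intro hx
          have : T < -ξ := hx
          linarith
        rw [Set.indicator_of_mem m1, Set.indicator_of_notMem m2, add_zero, h5]
        exact e1 ξ (by linarith)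
      · have m1 : -ξ ∈ Set.Ioi T := by rw [← h5]; exact h
        have m2 : ξ ∉ Set.Ioi T := by
          intro hx
          have : T < ξ := hx
          linarith
        rw [Set.indicator_of_mem m1, Set.indicator_of_notMem m2, zero_add, h5]
        exact e1 (-ξ) (by linarith)
    rw [h4]
    have h5 := hd ξ h
    have h6 : ‖𝓕 φ ξ‖ ^ 2 ≤ (Bc / |ξ|) ^ 2 := pow_le_pow_left₀ (norm_nonneg _) h5 2
    have h7 : (Bc / |ξ|) ^ 2 = Bc ^ 2 * (1 / |ξ| ^ 2) := by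
      rw [div_pow]; ring
    have h8 : (‖∑ m ∈ R, c m * e (Real.log (m : ℝ) * ξ)‖ ^ k) ^ 2 * ‖𝓕 φ ξ‖ ^ 2 ≤
        ‖𝓕 φ ξ‖ ^ 2 := mul_le_of_le_one_left (by positivity) h3
    have h9 : 0 ≤ (ρ ^ k) ^ 2 * ‖𝓕 φ ξ‖ ^ 2 := by positivity
    rw [h7] at h6
    linarith

end Pool.Agent.W5h75.SU
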