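import Mathlib
import Pool.Agent.W5h75.SU.Op

/-!
A function with signs depending on multiplicative shifts has small support.
-/

set_option autoImplicit false

open Finset MeasureTheory FourierTransform

namespace Pool.Agent.W5h75.SU

open Pool.Agent.H469R2.NK (e norm_e e_add e_zero conj_e)
open Pool.Agent.H438R2.DL (planch bx bx_int bx_L2 fourier_bx J J_decay e_cont)

open Classical in
/-- the indicator of the bad positions -/
noncomputable def al (B : Finset ℕ) (u : ℝ) : ℝ := if ⌊Real.exp u⌋₊ ∈ B then 1 else 0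

open Classical in
/-- the signs at the bad positions -/
noncomputable def ph (B : Finset ℕ) (g : ℕ → ℝ) (u : ℝ) : ℂ :=
  if ⌊Real.exp u⌋₊ ∈ B then ((g ⌊Real.exp u⌋₊ : ℝ) : ℂ) else 0

/-- averages -/
noncomputable def DD (R : Finset ℕ) (w : ℕ → ℝ) (f : ℝ → ℝ) : ℕ → ℝ → ℝ
  | 0 => f
  | (k + 1) => fun u => ∑ m ∈ R, w m * DD R w f k (u + Real.log (m : ℝ))

/-- products of `k` elements -/
def PS (R : Finset ℕ) : ℕ → Set ℕ
  | 0 => {1}
  | (k + 1) => {v | ∃ m ∈ R, ∃ V ∈ PS R k, v = m * V}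

lemma PS_pos (R : Finset ℕ) (hR : ∀ m ∈ R, 1 ≤ m) : ∀ k, ∀ V ∈ PS R k, 1 ≤ V := by
  intro k
  induction k with
  | zero =>
    intro V hV
    have : V = 1 := hV
    omega
  | succ k ih =>
    rintro V ⟨m, hm, V', hV', rfl⟩
    exact Nat.mul_pos (hR m hm) (ih V' hV')

lemma floor_iff (N : ℕ) (hN : 1 ≤ N) (u : ℝ) :
    u ∈ Set.Ico (Real.log (N : ℝ)) (Real.log ((N : ℝ) + 1)) ↔ ⌊Real.exp u⌋₊ = N := by
  have hN0 : (0 : ℝ) < N := by exact_mod_cast hN
  rw [Nat.floor_eq_iff (Real.exp_pos u).le, Set.mem_Ico, Real.log_le_iff_le_exp hN0,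
    Real.lt_log_iff_exp_lt (by linarith)]

lemma al_eq (B : Finset ℕ) (hB : ∀ N ∈ B, 1 ≤ N) (u : ℝ) :
    al B u = ∑ N ∈ B, Set.indicator (Set.Ico (Real.log (N : ℝ)) (Real.log ((N : ℝ) + 1)))
      (fun _ => (1 : ℝ)) u := by
  classical
  have h : ∀ N ∈ B, Set.indicator (Set.Ico (Real.log (N : ℝ)) (Real.log ((N : ℝ) + 1)))
      (fun _ => (1 : ℝ)) u = if ⌊Real.exp u⌋₊ = N then 1 else 0 := by
    intro N hN
    rw [Set.indicator_apply, if_congr (floor_iff N (hB N hN) u) rfl rfl]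
  rw [sum_congr rfl h, sum_ite_eq]
  unfold al
  split_ifs <;> rfl

lemma ph_eq (B : Finset ℕ) (hB : ∀ N ∈ B, 1 ≤ N) (g : ℕ → ℝ) (u : ℝ) :
    ph B g u = ∑ N ∈ B, ((g N : ℝ) : ℂ) * bx (Real.log (N : ℝ)) (Real.log ((N : ℝ) + 1)) u := by
  classical
  have h : ∀ N ∈ B, ((g N : ℝ) : ℂ) * bx (Real.log (N : ℝ)) (Real.log ((N : ℝ) + 1)) u =
      if ⌊Real.exp u⌋₊ = N then ((g N : ℝ) : ℂ) else 0 := by
    intro N hN
    unfold bx
    rw [Set.indicator_apply, if_congr (floor_iff N (hB N hN) u) rfl rfl]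
    split_ifs <;> simp
  rw [sum_congr rfl h, sum_ite_eq]
  unfold ph
  split_ifs <;> rfl

lemma al_int (B : Finset ℕ) (hB : ∀ N ∈ B, 1 ≤ N) : Integrable (al B) ∧
    ∫ u, al B u = ∑ N ∈ B, (Real.log ((N : ℝ) + 1) - Real.log (N : ℝ)) := by
  have h : al B = fun u => ∑ N ∈ B, Set.indicator (Set.Ico (Real.log (N : ℝ))
      (Real.log ((N : ℝ) + 1))) (fun _ => (1 : ℝ)) u := by
    funext u
    exact al_eq B hB u
  have hi : ∀ N ∈ B, Integrable (Set.indicator (Set.Ico (Real.log (N : ℝ))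
      (Real.log ((N : ℝ) + 1))) (fun _ => (1 : ℝ))) := by
    intro N _
    rw [integrable_indicator_iff measurableSet_Ico]
    exact integrableOn_const (by simp) (by simp)
  constructor
  · rw [h]
    exact integrable_finsetSum _ hi
  · rw [h, integral_finsetSum _ hi]
    refine sum_congr rfl fun N hN => ?_
    have hN0 : (0 : ℝ) < N := by exact_mod_cast hB N hN
    rw [integral_indicator_const _ measurableSet_Ico, smul_eq_mul, mul_one, Measure.real,
      Real.volume_Ico, ENNReal.toReal_ofReal]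
    have := Real.log_le_log hN0 (by linarith : (N : ℝ) ≤ N + 1)
    linarith

lemma ph_fun (B : Finset ℕ) (hB : ∀ N ∈ B, 1 ≤ N) (g : ℕ → ℝ) :
    ph B g = fun u => ∑ N ∈ B, ((g N : ℝ) : ℂ) *
      bx (Real.log (N : ℝ)) (Real.log ((N : ℝ) + 1)) u := by
  funext u
  exact ph_eq B hB g u

lemma ph_int (B : Finset ℕ) (hB : ∀ N ∈ B, 1 ≤ N) (g : ℕ → ℝ) : Integrable (ph B g) := by
  rw [ph_fun B hB g]
  exact integrable_finsetSum _ fun N _ => (bx_int _ _).const_mul _

lemma ph_L2 (B : Finset ℕ) (hB : ∀ N ∈ B, 1 ≤ N) (g : ℕ → ℝ) : MemLp (ph B g) 2 := by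
  rw [ph_fun B hB g]
  exact memLp_finsetSum _ fun N _ => (bx_L2 _ _).const_mul _

lemma ph_norm (B : Finset ℕ) (g : ℕ → ℝ) (hg : ∀ N ∈ B, |g N| = 1) (u : ℝ) :
    ‖ph B g u‖ ^ 2 = al B u := by
  unfold ph al
  split_ifs with h
  · rw [Complex.norm_real, Real.norm_eq_abs, hg _ h, one_pow]
  · simp

lemma ph_decay (B : Finset ℕ) (hB : ∀ N ∈ B, 1 ≤ N) (g : ℕ → ℝ) (hg : ∀ N ∈ B, |g N| = 1)
    (ξ : ℝ) (hξ : 0 < |ξ|) : ‖𝓕 (ph B g) ξ‖ ≤ (B.card : ℝ) / |ξ| := by
  rw [fourier_e, ph_fun B hB g]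
  have h1 : ∀ v : ℝ, e (-(v * ξ)) * ∑ N ∈ B, ((g N : ℝ) : ℂ) *
      bx (Real.log (N : ℝ)) (Real.log ((N : ℝ) + 1)) v =
      ∑ N ∈ B, ((g N : ℝ) : ℂ) * (e (-(v * ξ)) *
        bx (Real.log (N : ℝ)) (Real.log ((N : ℝ) + 1)) v) := by
    intro v
    rw [mul_sum]
    exact sum_congr rfl fun m _ => by ring
  simp only [h1]
  rw [integral_finsetSum]
  · refine (norm_sum_le _ _).trans ?_
    have h2 : ∀ N ∈ B, ‖∫ v, ((g N : ℝ) : ℂ) * (e (-(v * ξ)) *
        bx (Real.log (N : ℝ)) (Real.log ((N : ℝ) + 1)) v)‖ ≤ 1 / |ξ| := by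
      intro N hN
      have hN0 : (0 : ℝ) < N := by exact_mod_cast hB N hN
      rw [integral_const_mul, ← fourier_e, norm_mul, Complex.norm_real, Real.norm_eq_abs, hg N hN,
        one_mul]
      have h3 : 0 ≤ Real.log ((N : ℝ) + 1) - Real.log (N : ℝ) := by
        have := Real.log_le_log hN0 (by linarith : (N : ℝ) ≤ N + 1)
        linarith
      have h4 := fourier_bx (Real.log ((N : ℝ) + 1)) (Real.log ((N : ℝ) + 1) - Real.log (N : ℝ)) ξ h3
      rw [sub_sub_cancel] at h4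
      rw [h4, norm_mul, norm_e, one_mul]
      refine (J_decay _ _ (abs_pos.1 hξ)).trans ?_
      apply one_div_le_one_div_of_le hξ
      have := Real.pi_gt_three
      nlinarith
    refine (sum_le_sum h2).trans ?_
    rw [sum_const, nsmul_eq_mul, mul_one_div]
  · intro N _
    refine Integrable.const_mul ?_ _
    exact (bx_int _ _).bdd_mul (c := 1) (e_neg_cont ξ).aestronglyMeasurable
      (Filter.Eventually.of_forall fun v => (norm_e _).le)

lemma DD_nonneg (R : Finset ℕ) (w : ℕ → ℝ) (hw0 : ∀ m, 0 ≤ w m) (f : ℝ → ℝ) (hf : ∀ u, 0 ≤ f u) :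
    ∀ k u, 0 ≤ DD R w f k u := by
  intro k
  induction k with
  | zero => exact hf
  | succ k ih =>
    intro u
    exact sum_nonneg fun m _ => mul_nonneg (hw0 m) (ih _)

lemma DD_int (R : Finset ℕ) (w : ℕ → ℝ) (hw1 : ∑ m ∈ R, w m = 1) (f : ℝ → ℝ)
    (hf : Integrable f) : ∀ k, Integrable (DD R w f k) ∧ ∫ u, DD R w f k u = ∫ u, f u := by
  intro k
  induction k with
  | zero => exact ⟨hf, rfl⟩
  | succ k ih =>
    obtain ⟨ih1, ih2⟩ := ih
    have hi : ∀ m ∈ R, Integrable (fun u => w m * DD R w f k (u + Real.log (m : ℝ))) :=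
      fun m _ => (ih1.comp_add_right _).const_mul _
    refine ⟨integrable_finsetSum _ hi, ?_⟩
    show ∫ u, ∑ m ∈ R, w m * DD R w f k (u + Real.log (m : ℝ)) = ∫ u, f u
    rw [integral_finsetSum _ hi]
    have h : ∀ m ∈ R, ∫ u, w m * DD R w f k (u + Real.log (m : ℝ)) = w m * ∫ u, f u := by
      intro m _
      rw [integral_const_mul, integral_add_right_eq_self (DD R w f k), ih2]
    rw [sum_congr rfl h, ← sum_mul, hw1, one_mul]

lemma DD_supp (R : Finset ℕ) (w : ℕ → ℝ) (f : ℝ → ℝ) (lo hi l₁ l₂ : ℝ)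
    (hf : ∀ u, f u ≠ 0 → lo ≤ u ∧ u ≤ hi)
    (hR : ∀ m ∈ R, l₁ ≤ Real.log (m : ℝ) ∧ Real.log (m : ℝ) ≤ l₂) :
    ∀ k : ℕ, ∀ u, DD R w f k u ≠ 0 → lo - k * l₂ ≤ u ∧ u ≤ hi - k * l₁ := by
  intro k
  induction k with
  | zero =>
    intro u hu
    simpa using hf u hu
  | succ k ih =>
    intro u hu
    obtain ⟨m, hm, hne⟩ := exists_ne_zero_of_sum_ne_zero hu
    obtain ⟨h1, h2⟩ := ih _ (right_ne_zero_of_mul hne)
    obtain ⟨h3, h4⟩ := hR m hm
    push_cast
    constructor <;> linarith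

/-- alignment of the signs -/
lemma align (R : Finset ℕ) (hR : ∀ m ∈ R, 1 ≤ m) (w : ℕ → ℝ) (f : ℝ → ℂ) (a : ℝ → ℝ) :
    ∀ (k : ℕ) (u s : ℝ), (∀ V ∈ PS R k, ((sg V : ℝ) : ℂ) * f (u + Real.log (V : ℝ)) =
      (s : ℂ) * (a (u + Real.log (V : ℝ)) : ℂ)) →
      ((Tp R (fun m => ((w m * sg m : ℝ) : ℂ)))^[k] f) u = (s : ℂ) * (DD R w a k u : ℂ) := by
  intro k
  induction k with
  | zero =>
    intro u s h
    have := h 1 rfl
    simpa [sg, DD] using this
  | succ k ih =>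
    intro u s h
    rw [Function.iterate_succ_apply']
    show ∑ m ∈ R, ((w m * sg m : ℝ) : ℂ) *
      ((Tp R (fun m => ((w m * sg m : ℝ) : ℂ)))^[k] f) (u + Real.log (m : ℝ)) =
      (s : ℂ) * ((∑ m ∈ R, w m * DD R w a k (u + Real.log (m : ℝ)) : ℝ) : ℂ)
    rw [Complex.ofReal_sum, mul_sum]
    refine sum_congr rfl fun m hm => ?_
    have hm1 := hR m hm
    have hm0 : (0 : ℝ) < m := by exact_mod_cast hm1
    have hsq : ((sg m : ℝ) : ℂ) * ((sg m : ℝ) : ℂ) = 1 := by exact_mod_cast sg_sq m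
    have key := ih (u + Real.log (m : ℝ)) (s * sg m) (by
      intro V hV
      have hV1 := PS_pos R hR k V hV
      have hV0 : (0 : ℝ) < V := by exact_mod_cast hV1
      have h1 := h (m * V) ⟨m, hm, V, hV, rfl⟩
      have e1 : u + Real.log ((m * V : ℕ) : ℝ) = u + Real.log (m : ℝ) + Real.log (V : ℝ) := by
        push_cast
        rw [Real.log_mul hm0.ne' hV0.ne']
        ring
      rw [e1, sg_mul m V (by omega) (by omega)] at h1
      push_cast at h1 ⊢
      calc ((sg V : ℝ) : ℂ) * f (u + Real.log (m : ℝ) + Real.log (V : ℝ)) =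
          (((sg m : ℝ) : ℂ) * ((sg m : ℝ) : ℂ)) * (((sg V : ℝ) : ℂ) *
            f (u + Real.log (m : ℝ) + Real.log (V : ℝ))) := by rw [hsq, one_mul]
        _ = ((sg m : ℝ) : ℂ) * (((sg m : ℝ) : ℂ) * ((sg V : ℝ) : ℂ) *
            f (u + Real.log (m : ℝ) + Real.log (V : ℝ))) := by ring
        _ = _ := by rw [h1]; ring)
    rw [key]
    push_cast
    calc ((w m : ℝ) : ℂ) * ((sg m : ℝ) : ℂ) * ((s : ℂ) * ((sg m : ℝ) : ℂ) *
          (DD R w a k (u + Real.log (m : ℝ)) : ℂ)) =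
        (((sg m : ℝ) : ℂ) * ((sg m : ℝ) : ℂ)) * ((s : ℂ) * (((w m : ℝ) : ℂ) *
          (DD R w a k (u + Real.log (m : ℝ)) : ℂ))) := by ring
      _ = _ := by rw [hsq, one_mul]

theorem final (R : Finset ℕ) (N₀ : ℕ) (hN₀ : 1 ≤ N₀) (hR : ∀ m ∈ R, N₀ ≤ m ∧ m < 64 * N₀)
    (w : ℕ → ℝ) (hw0 : ∀ m, 0 ≤ w m) (hw1 : ∑ m ∈ R, w m = 1) (ρ T : ℝ) (hT : 0 < T)
    (hl : ∀ ξ : ℝ, |ξ| ≤ T →
      ‖∑ m ∈ R, ((w m * sg m : ℝ) : ℂ) * e (Real.log (m : ℝ) * ξ)‖ ≤ ρ)
    (B : Finset ℕ) (X₁ X₂ : ℕ) (hX₁ : 1 ≤ X₁) (hB : ∀ N ∈ B, X₁ ≤ N ∧ N ≤ X₂) (g : ℕ → ℝ)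
    (hg : ∀ N ∈ B, |g N| = 1) (k : ℕ)
    (hal : ∀ u : ℝ, ∀ V ∈ PS R k, ∀ V' ∈ PS R k, ⌊Real.exp u * V⌋₊ ∈ B → ⌊Real.exp u * V'⌋₊ ∈ B →
      sg V * g ⌊Real.exp u * V⌋₊ = sg V' * g ⌊Real.exp u * V'⌋₊) :
    (∑ N ∈ B, (Real.log ((N : ℝ) + 1) - Real.log (N : ℝ))) ^ 2 ≤
      (Real.log ((X₂ : ℝ) + 1) - Real.log X₁ + k * Real.log 64) *
        ((ρ ^ k) ^ 2 * (∑ N ∈ B, (Real.log ((N : ℝ) + 1) - Real.log (N : ℝ))) +
          (B.card : ℝ) ^ 2 * (2 / T)) := by
  classical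
  have hB1 : ∀ N ∈ B, 1 ≤ N := fun N hN => hX₁.trans (hB N hN).1
  have hR1 : ∀ m ∈ R, 1 ≤ m := fun m hm => hN₀.trans (hR m hm).1
  set a : ℝ := ∑ N ∈ B, (Real.log ((N : ℝ) + 1) - Real.log (N : ℝ)) with ha
  obtain ⟨ai, aI⟩ := al_int B hB1
  rw [← ha] at aI
  have ha0 : 0 ≤ a := by
    rw [ha]
    refine sum_nonneg fun N hN => ?_
    have hN0 : (0 : ℝ) < N := by exact_mod_cast hB1 N hN
    have := Real.log_le_log hN0 (by linarith : (N : ℝ) ≤ N + 1)
    linarith
  have hal0 : ∀ u, 0 ≤ al B u := by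
    intro u
    unfold al
    split_ifs <;> norm_num
  -- alignment
  have hexp : ∀ (u : ℝ) (V : ℕ), 1 ≤ V → Real.exp (u + Real.log (V : ℝ)) = Real.exp u * V := by
    intro u V hV
    have : (0 : ℝ) < V := by exact_mod_cast hV
    rw [Real.exp_add, Real.exp_log this]
  have hs : ∀ u : ℝ, ∃ s : ℝ, |s| = 1 ∧ ∀ V ∈ PS R k, ((sg V : ℝ) : ℂ) *
      ph B g (u + Real.log (V : ℝ)) = (s : ℂ) * (al B (u + Real.log (V : ℝ)) : ℂ) := by
    intro u
    by_cases hex : ∃ V ∈ PS R k, ⌊Real.exp u * V⌋₊ ∈ B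
    · obtain ⟨V₀, hV₀, hV₀B⟩ := hex
      refine ⟨sg V₀ * g ⌊Real.exp u * V₀⌋₊, by rw [abs_mul, sg_abs, hg _ hV₀B, one_mul], ?_⟩
      intro V hV
      unfold ph al
      rw [hexp u V (PS_pos R hR1 k V hV)]
      split_ifs with h
      · rw [← hal u V hV V₀ hV₀ h hV₀B]
        push_cast
        ring
      · simp
    · refine ⟨1, abs_one, ?_⟩
      intro V hV
      unfold ph al
      rw [hexp u V (PS_pos R hR1 k V hV), if_neg (fun h => hex ⟨V, hV, h⟩),
        if_neg (fun h => hex ⟨V, hV, h⟩)]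
      simp
  have hD0 := DD_nonneg R w hw0 (al B) hal0 k
  have hnorm : ∀ u, ‖((Tp R (fun m => ((w m * sg m : ℝ) : ℂ)))^[k] (ph B g)) u‖ ^ 2 =
      (DD R w (al B) k u) ^ 2 := by
    intro u
    obtain ⟨s, hs1, hs2⟩ := hs u
    rw [align R hR1 w (ph B g) (al B) k u s hs2, norm_mul, Complex.norm_real, Complex.norm_real,
      Real.norm_eq_abs, Real.norm_eq_abs, hs1, one_mul, sq_abs]
  obtain ⟨P1, P2⟩ := plan R w hw0 hw1 ρ T hT hl (ph B g) (ph_int B hB1 g) (ph_L2 B hB1 g)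
    (B.card : ℝ) (fun ξ hξ => ph_decay B hB1 g hg ξ (hT.trans hξ)) k
  simp only [hnorm] at P1 P2
  have hphi : ∫ u, ‖ph B g u‖ ^ 2 = a := by
    simp only [ph_norm B g hg]
    exact aI
  rw [hphi] at P2
  -- support
  have hN0r : (0 : ℝ) < N₀ := by exact_mod_cast hN₀
  have hX0r : (0 : ℝ) < X₁ := by exact_mod_cast hX₁
  have hsupp := DD_supp R w (al B) (Real.log X₁) (Real.log ((X₂ : ℝ) + 1)) (Real.log N₀)
    (Real.log (64 * N₀)) (by
      intro u hu
      have h : ⌊Real.exp u⌋₊ ∈ B := by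
        by_contra h
        exact hu (by unfold al; rw [if_neg h])
      obtain ⟨h1, h2⟩ := hB _ h
      constructor
      · rw [Real.log_le_iff_le_exp hX0r]
        refine le_trans (by exact_mod_cast h1) (Nat.floor_le (Real.exp_pos u).le)
      · rw [Real.le_log_iff_exp_le (by positivity)]
        refine (Nat.lt_floor_add_one _).le.trans ?_
        have : ((⌊Real.exp u⌋₊ : ℕ) : ℝ) ≤ X₂ := by exact_mod_cast h2
        linarith) (by
      intro m hm
      obtain ⟨h1, h2⟩ := hR m hm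
      have h1r : (N₀ : ℝ) ≤ m := by exact_mod_cast h1
      have h2r : (m : ℝ) ≤ 64 * N₀ := by exact_mod_cast h2.le
      exact ⟨Real.log_le_log hN0r h1r, Real.log_le_log (by linarith) h2r⟩) k
  set lo : ℝ := Real.log X₁ - k * Real.log (64 * N₀) with hlo
  set hi : ℝ := Real.log ((X₂ : ℝ) + 1) - k * Real.log N₀ with hhi
  have hlen : hi - lo = Real.log ((X₂ : ℝ) + 1) - Real.log X₁ + k * Real.log 64 := by
    rw [hhi, hlo, Real.log_mul (by norm_num) hN0r.ne']
    ring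
  obtain ⟨D1, D2⟩ := DD_int R w hw1 (al B) ai k
  rw [aI] at D2
  rw [← hlen]
  rcases eq_or_lt_of_le ha0 with h0 | hapos
  · -- trivial case
    rw [← h0]
    have hcard : B.card = 0 := by
      by_contra hne
      obtain ⟨N, hN⟩ := Finset.card_ne_zero.1 hne
      have hN0 : (0 : ℝ) < N := by exact_mod_cast hB1 N hN
      have hpos : 0 < Real.log ((N : ℝ) + 1) - Real.log (N : ℝ) := by
        have := Real.log_lt_log hN0 (by linarith : (N : ℝ) < N + 1)
        linarith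
      have hle : Real.log ((N : ℝ) + 1) - Real.log (N : ℝ) ≤ a := by
        rw [ha]
        refine single_le_sum (f := fun N : ℕ => Real.log ((N : ℝ) + 1) - Real.log (N : ℝ)) ?_ hN
        intro M hM
        have hM0 : (0 : ℝ) < M := by exact_mod_cast hB1 M hM
        have := Real.log_le_log hM0 (by linarith : (M : ℝ) ≤ M + 1)
        show 0 ≤ Real.log ((M : ℝ) + 1) - Real.log (M : ℝ)
        linarith
      linarith
    rw [hcard]
    simp
  · -- the interval is nondegenerate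
    have hlt : lo < hi := by
      by_contra hcon
      push Not at hcon
      have hz : ∀ᵐ u : ℝ, DD R w (al B) k u = 0 := by
        have hfin : (Set.Icc lo hi).Subsingleton := by
          intro x hx y hy
          have := hx.1; have := hx.2; have := hy.1; have := hy.2
          linarith
        have hnull : volume (Set.Icc lo hi) = 0 := hfin.measure_zero volume
        rw [ae_iff]
        refine measure_mono_null ?_ hnull
        intro u hu
        exact hsupp u hu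
      have : ∫ u, DD R w (al B) k u = 0 := by
        rw [integral_congr_ae hz]
        simp
      rw [D2] at this
      linarith
    set L : ℝ := hi - lo with hL
    have hL0 : 0 < L := by rw [hL]; linarith
    set lam : ℝ := a / L with hlam
    have hlam0 : 0 < lam := div_pos hapos hL0
    set ind : ℝ → ℝ := Set.indicator (Set.Icc lo hi) (fun _ => (1 : ℝ)) with hind
    have hindi : Integrable ind := by
      rw [hind, integrable_indicator_iff measurableSet_Icc]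
      exact integrableOn_const (by simp) (by simp)
    have hindI : ∫ u, ind u = L := by
      rw [hind, integral_indicator_const _ measurableSet_Icc, smul_eq_mul, mul_one, Measure.real,
        Real.volume_Icc, ENNReal.toReal_ofReal hL0.le]
    have hpt : ∀ u, DD R w (al B) k u ≤ 1 / (2 * lam) * (DD R w (al B) k u) ^ 2 +
        lam / 2 * ind u := by
      intro u
      by_cases hu : DD R w (al B) k u = 0
      · rw [hu]
        have : 0 ≤ ind u := Set.indicator_nonneg (fun _ _ => zero_le_one) u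
        have := mul_nonneg (by positivity : 0 ≤ lam / 2) this
        simpa using this
      · have hmem : u ∈ Set.Icc lo hi := hsupp u hu
        have hone : ind u = 1 := Set.indicator_of_mem hmem _
        rw [hone]
        have h1 : 0 ≤ (DD R w (al B) k u - lam) ^ 2 := sq_nonneg _
        have h2 : 1 / (2 * lam) * (DD R w (al B) k u) ^ 2 + lam / 2 * 1 - DD R w (al B) k u =
            (DD R w (al B) k u - lam) ^ 2 / (2 * lam) := by
          field_simp
          ring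
        have h3 : 0 ≤ (DD R w (al B) k u - lam) ^ 2 / (2 * lam) := by positivity
        linarith
    have hint := integral_mono D1 ((P1.const_mul (1 / (2 * lam))).add (hindi.const_mul (lam / 2)))
      hpt
    simp only [Pi.add_apply] at hint
    rw [integral_add (P1.const_mul _) (hindi.const_mul _), integral_const_mul, integral_const_mul,
      hindI, D2] at hint
    set I2 : ℝ := ∫ u, (DD R w (al B) k u) ^ 2 with hI2
    have e1 : lam / 2 * L = a / 2 := by
      rw [hlam]; field_simp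
    have e2 : 1 / (2 * lam) * I2 = L * I2 / (2 * a) := by
      rw [hlam]; field_simp
    rw [e1, e2] at hint
    have e3 : a / 2 ≤ L * I2 / (2 * a) := by linarith
    rw [le_div_iff₀ (by positivity)] at e3
    have e4 : a ^ 2 ≤ L * I2 := by nlinarith
    exact e4.trans (mul_le_mul_of_nonneg_left P2 hL0.le)

end Pool.Agent.W5h75.SU
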