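import Mathlib
import Pool.Agent.W5h75.SU.Align
import Pool.Agent.W5h75.ST.Real

/-!
Auxiliary statements for the theorem on almost all short intervals.
-/

set_option autoImplicit false

open Finset

namespace Pool.Agent.W5h75.SU

open Pool.Agent.H661R3.OP
open Pool.Agent.W5h75.SP (rough_mul)
open Pool.Agent.W5h75.SQ (Fpar add2_Fpar)
open Pool.Agent.W5h75.SR (Ex ex_finite Cst)
open Pool.Agent.W5h75.ST (mem_props)

/-- signs of the elements of `ZMod 2` -/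
def sgZ (c : ZMod 2) : ℝ := if c = 0 then 1 else -1

lemma sgZ_add (x y : ZMod 2) : sgZ (x + y) = sgZ x * sgZ y := by
  have h : ∀ x : ZMod 2, x = 0 ∨ x = 1 := by decide
  have h10 : (1 : ZMod 2) ≠ 0 := by decide
  have h11 : (1 : ZMod 2) + 1 = 0 := by decide
  rcases h x with rfl | rfl <;> rcases h y with rfl | rfl <;> simp [sgZ, h10, h11]

lemma sgZ_sq (x : ZMod 2) : sgZ x * sgZ x = 1 := by
  unfold sgZ
  split_ifs <;> norm_num

lemma sgZ_abs (x : ZMod 2) : |sgZ x| = 1 := by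
  unfold sgZ
  split_ifs <;> simp

lemma sg_eq (V : ℕ) : sg V = sgZ (Fpar (V : ℤ)) := by
  unfold sg Fpar
  rw [Int.natAbs_natCast]
  generalize ArithmeticFunction.cardFactors V = n
  induction n with
  | zero => simp [sgZ]
  | succ n ih =>
    rw [pow_succ, ih, Nat.cast_succ, sgZ_add]
    congr 1

lemma signs (c c' : ZMod 2) (V V' : ℕ) (h : c + c' = Fpar (V : ℤ) + Fpar (V' : ℤ)) :
    sg V * sgZ c = sg V' * sgZ c' := by
  have h1 : sgZ c * sgZ c' = sg V * sg V' := by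
    rw [sg_eq, sg_eq, ← sgZ_add, ← sgZ_add, h]
  have h2 := sgZ_sq c'
  have h3 := sg_sq V
  calc sg V * sgZ c = sg V * sgZ c * (sgZ c' * sgZ c') := by rw [h2, mul_one]
    _ = sg V * (sgZ c * sgZ c') * sgZ c' := by ring
    _ = (sg V * sg V) * sg V' * sgZ c' := by rw [h1]; ring
    _ = sg V' * sgZ c' := by rw [h3, one_mul]

lemma PS_props (q Y N k : ℕ) : ∀ V ∈ PS (RV q Y N) k, V ≡ 1 [MOD q] ∧ Rough Y (V : ℤ) ∧
    (V : ℝ) ≤ (64 * (N : ℝ)) ^ k := by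
  classical
  induction k with
  | zero =>
    intro V hV
    have h1 : V = 1 := hV
    subst h1
    refine ⟨rfl, ?_, by simp⟩
    intro p hp _ hd
    have h2 : p ∣ 1 := by exact_mod_cast hd
    exact hp.one_lt.ne' (Nat.dvd_one.1 h2)
  | succ k ih =>
    rintro V ⟨m, hm, V', hV', rfl⟩
    obtain ⟨h1, h2, h3⟩ := ih V' hV'
    rw [RV, mem_filter, Om, mem_filter, mem_Ico] at hm
    obtain ⟨⟨⟨k1, k2⟩, k3⟩, k4⟩ := hm
    refine ⟨k3.mul h1, ?_, ?_⟩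
    · push_cast
      refine rough_mul ?_ h2
      intro p hp hpY hd
      exact k4 p hp hpY (by exact_mod_cast hd)
    · have k5 : (m : ℝ) ≤ 64 * N := by exact_mod_cast k2.le
      push_cast
      rw [pow_succ, mul_comm]
      exact mul_le_mul h3 k5 (Nat.cast_nonneg _) (by positivity)

theorem bad_cst {ι : Type} (a b : ι → ℤ) (o : ι) (ha : ∀ i, 0 < a i) (m : ℕ) (r : ℤ) (W : ℕ)
    (n₀ : ℤ) (hmW : m ∣ W) (hn₀r : (m : ℤ) ∣ n₀ - r) (Y : ℕ) (Z : ℤ) (E : ℕ) (θ ε δ : ℝ) (R : ℕ)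
    (hR : 2 / δ ≤ R) (hδ : 0 < δ) (hθ1 : θ ≤ 1) (N : ℕ) (hN6 : 6 ≤ (N : ℝ))
    (hbd : ∀ i, 2 * (a i : ℝ) + |(b i : ℝ)| + 6 ≤ N) (hZ : (Z : ℝ) ≤ (N : ℝ) ^ θ)
    (hY : (N : ℝ) ^ δ < (Y : ℝ) + 1) (s : ZMod 2)
    (hbad : ¬ (N : ℝ) ^ (θ - ε) ≤
      ({n : ℕ | N < n ∧ (n : ℝ) ≤ N + (N : ℝ) ^ θ ∧ (m : ℤ) ∣ n - r ∧
        (∀ i, 0 < a i * n + b i ∧ ArithmeticFunction.cardFactors (a i * n + b i).natAbs ≤ R ∧
          ∀ p : ℕ, p.Prime → (p : ℤ) ∣ a i * n + b i → (N : ℝ) ^ δ < p) ∧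
        ((ArithmeticFunction.cardFactors (a o * n + b o).natAbs : ℕ) : ZMod 2) =
          s}.ncard : ℝ))
    (hE : (N : ℝ) ^ (θ - ε) ≤ (E : ℝ) + 1) : Cst a b o Fpar W n₀ Y Z E (N : ℝ) (s + 1) := by
  have hN1 : (1 : ℝ) ≤ N := by linarith
  set S : Set ℕ := {n : ℕ | N < n ∧ (n : ℝ) ≤ N + (N : ℝ) ^ θ ∧ (m : ℤ) ∣ n - r ∧
        (∀ i, 0 < a i * n + b i ∧ ArithmeticFunction.cardFactors (a i * n + b i).natAbs ≤ R ∧
          ∀ p : ℕ, p.Prime → (p : ℤ) ∣ a i * n + b i → (N : ℝ) ^ δ < p) ∧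
        ((ArithmeticFunction.cardFactors (a o * n + b o).natAbs : ℕ) : ZMod 2) = s} with hS
  have hSfin : S.Finite := by
    apply (Set.finite_Iic ⌊(N : ℝ) + (N : ℝ) ^ θ⌋₊).subset
    intro n hn
    exact Nat.le_floor hn.2.1
  have hNθ : (N : ℝ) ^ θ ≤ N := by
    calc (N : ℝ) ^ θ ≤ (N : ℝ) ^ (1 : ℝ) := Real.rpow_le_rpow_of_exponent_le hN1 hθ1
      _ = N := Real.rpow_one _
  have hzz : ∀ y c : ZMod 2, y ≠ c + 1 → y = c := by decide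
  have hsub : Ex a b o Fpar W n₀ Y Z (N : ℝ) (s + 1) ⊆ (fun n : ℕ => (n : ℤ)) '' S := by
    intro n hn
    obtain ⟨hn0, k1, k2, k3, k4, k5⟩ := mem_props a b o ha m r W n₀ hmW hn₀r Y Z (N : ℝ) θ δ R hR
      hδ hN6 hbd hZ hNθ hY _ n hn
    have hnn' : ((n.toNat : ℕ) : ℤ) = n := Int.toNat_of_nonneg hn0
    have hnr : ((n.toNat : ℕ) : ℝ) = (n : ℝ) := by
      exact_mod_cast congrArg (Int.cast : ℤ → ℝ) hnn'
    refine ⟨n.toNat, ⟨?_, ?_, ?_, ?_, ?_⟩, hnn'⟩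
    · have : (N : ℝ) < ((n.toNat : ℕ) : ℝ) := by rw [hnr]; exact k1
      exact_mod_cast this
    · rw [hnr]; exact k2
    · rw [hnn']; exact k3
    · intro i
      rw [hnn']
      exact k4 i
    · rw [hnn']
      exact hzz _ _ k5
  have hcard : (Ex a b o Fpar W n₀ Y Z (N : ℝ) (s + 1)).ncard ≤ S.ncard :=
    (Set.ncard_le_ncard hsub (hSfin.image _)).trans (Set.ncard_image_le hSfin)
  push Not at hbad
  have hlt : (S.ncard : ℝ) < (E : ℝ) + 1 := by linarith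
  have hlt' : S.ncard < E + 1 := by exact_mod_cast hlt
  show (Ex a b o Fpar W n₀ Y Z (N : ℝ) (s + 1)).ncard ≤ E
  omega

lemma lk (X θ e bo W η Kk VV YC E Z : ℝ) (hX : 1 ≤ X) (heθ : e ≤ θ) (he0 : 0 < e) (hbo : 0 ≤ bo)
    (hW : 1 ≤ W) (hV : VV ≤ Kk * X ^ (e / 16)) (hV0 : 0 ≤ VV)
    (hYC : YC ≤ X ^ (e / 16)) (hE : E ≤ X ^ (θ - e / 2)) (hE0 : 0 ≤ E)
    (hZ : η / 8 * X ^ θ ≤ Z) (hbig : (4 + bo) * Kk * W * 8 ≤ η * X ^ (3 * e / 8)) :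
    (1 + bo + YC * (2 * E + 1)) * (VV * W) ≤ Z := by
  have hX0 : 0 < X := by linarith
  have hxp : ∀ u : ℝ, 0 < X ^ u := fun u => Real.rpow_pos_of_pos hX0 u
  have hxa : ∀ u v : ℝ, X ^ u * X ^ v = X ^ (u + v) := fun u v => (Real.rpow_add hX0 u v).symm
  have h1 : 1 ≤ X ^ (θ - e / 2) := Real.one_le_rpow hX (by linarith)
  have h2 : 1 ≤ X ^ (e / 16) := Real.one_le_rpow hX (by linarith)
  have h3 : YC * (2 * E + 1) ≤ X ^ (e / 16) * (3 * X ^ (θ - e / 2)) :=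
    mul_le_mul hYC (by linarith) (by linarith) (hxp _).le
  have h4 : 1 + bo + YC * (2 * E + 1) ≤ (4 + bo) * (X ^ (e / 16) * X ^ (θ - e / 2)) := by
    have k1 : 1 ≤ X ^ (e / 16) * X ^ (θ - e / 2) := one_le_mul_of_one_le_of_one_le h2 h1
    nlinarith
  have h5 : VV * W ≤ Kk * X ^ (e / 16) * W := mul_le_mul_of_nonneg_right hV (by linarith)
  have h6 : (1 + bo + YC * (2 * E + 1)) * (VV * W) ≤
      ((4 + bo) * (X ^ (e / 16) * X ^ (θ - e / 2))) * (Kk * X ^ (e / 16) * W) :=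
    mul_le_mul h4 h5 (by positivity) (by have := hxp (e / 16); have := hxp (θ - e / 2); positivity)
  have h7 : ((4 + bo) * (X ^ (e / 16) * X ^ (θ - e / 2))) * (Kk * X ^ (e / 16) * W) =
      ((4 + bo) * Kk * W * 8) / 8 * X ^ (θ - 3 * e / 8) := by
    have : X ^ (θ - 3 * e / 8) = X ^ (e / 16) * X ^ (θ - e / 2) * X ^ (e / 16) := by
      rw [hxa, hxa]
      congr 1
      ring
    rw [this]
    ring
  have h8 : ((4 + bo) * Kk * W * 8) / 8 * X ^ (θ - 3 * e / 8) ≤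
      (η * X ^ (3 * e / 8)) / 8 * X ^ (θ - 3 * e / 8) :=
    mul_le_mul_of_nonneg_right (by linarith) (hxp _).le
  have h9 : (η * X ^ (3 * e / 8)) / 8 * X ^ (θ - 3 * e / 8) = η / 8 * X ^ θ := by
    have : X ^ θ = X ^ (3 * e / 8) * X ^ (θ - 3 * e / 8) := by
      rw [hxa]
      congr 1
      ring
    rw [this]
    ring
  linarith

lemma exists_k (η : ℝ) (hη : 0 < η) : ∃ k : ℕ, 1 ≤ k ∧
    (8 / η + 5 * k) * (((7 / 8 : ℝ)) ^ k) ^ 2 < η / 16 := by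
  have h1 : Filter.Tendsto (fun k : ℕ => (k : ℝ) * (49 / 64 : ℝ) ^ k) Filter.atTop (nhds 0) :=
    tendsto_self_mul_const_pow_of_lt_one (by norm_num) (by norm_num)
  have h2 : Filter.Tendsto (fun k : ℕ => (49 / 64 : ℝ) ^ k) Filter.atTop (nhds 0) :=
    tendsto_pow_atTop_nhds_zero_of_lt_one (by norm_num) (by norm_num)
  have h3 : Filter.Tendsto (fun k : ℕ => 8 / η * (49 / 64 : ℝ) ^ k +
      5 * ((k : ℝ) * (49 / 64 : ℝ) ^ k)) Filter.atTop (nhds 0) := by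
    have := (h2.const_mul (8 / η)).add (h1.const_mul 5)
    simpa using this
  have h4 := (h3.eventually (gt_mem_nhds (by positivity : (0 : ℝ) < η / 16))).and
    (Filter.eventually_ge_atTop 1)
  obtain ⟨k, hk, hk1⟩ := h4.exists
  refine ⟨k, hk1, ?_⟩
  have e1 : (((7 / 8 : ℝ)) ^ k) ^ 2 = (49 / 64 : ℝ) ^ k := by
    rw [← pow_mul, mul_comm, pow_mul]
    norm_num
  rw [e1]
  linarith

end Pool.Agent.W5h75.SU
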