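import Mathlib
import Pool.Agent.W5h75.SU.Parts

/-!
Parity of the number of prime factors of one member of a rough tuple, in all but few of the
intervals `(N, N + N ^ θ]`, `θ > 0`.
-/

set_option autoImplicit false

open Finset

namespace Pool.Agent.W5h75.SU

open Pool.Agent.H661R3.OP
open Pool.Agent.W5h75.SP (SVK exists_SVK)
open Pool.Agent.W5h75.SQ (Fpar add2_Fpar exists_W)
open Pool.Agent.W5h75.SR (Ex ex_finite Cst)

/-- the numerical contradiction -/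
theorem contra (η X ρk a len : ℝ) (k : ℕ) (hη : 0 < η) (hX : 1 ≤ X)
    (hlen : len ≤ 8 / η + 5 * k) (hk : (8 / η + 5 * k) * ρk ^ 2 < η / 16)
    (ha : η / 4 ≤ a) (hXb : 128 * (8 / η + 5 * k) ≤ η ^ 2 * X) (Bc : ℝ) (hB0 : 0 ≤ Bc) (hB : Bc ≤ X)
    (h : a ^ 2 ≤ len * (ρk ^ 2 * a + Bc ^ 2 * (2 / X ^ 3))) : False := by
  have hX0 : 0 < X := by linarith
  have hL0 : 0 < 8 / η + 5 * (k : ℝ) := by positivity
  have ha0 : 0 < a := by linarith
  have h1 : Bc ^ 2 * (2 / X ^ 3) ≤ 2 / X := by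
    have k1 : Bc ^ 2 ≤ X ^ 2 := pow_le_pow_left₀ hB0 hB 2
    calc Bc ^ 2 * (2 / X ^ 3) ≤ X ^ 2 * (2 / X ^ 3) :=
          mul_le_mul_of_nonneg_right k1 (by positivity)
      _ = 2 / X := by field_simp
  have h2 : a ^ 2 ≤ (8 / η + 5 * k) * (ρk ^ 2 * a + 2 / X) := by
    have k1 : len * (ρk ^ 2 * a + Bc ^ 2 * (2 / X ^ 3)) ≤
        (8 / η + 5 * k) * (ρk ^ 2 * a + Bc ^ 2 * (2 / X ^ 3)) :=
      mul_le_mul_of_nonneg_right hlen (by positivity)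
    have k2 : (8 / η + 5 * k) * (ρk ^ 2 * a + Bc ^ 2 * (2 / X ^ 3)) ≤
        (8 / η + 5 * k) * (ρk ^ 2 * a + 2 / X) :=
      mul_le_mul_of_nonneg_left (by linarith) hL0.le
    linarith
  have h3 : (8 / η + 5 * k) * (ρk ^ 2 * a) ≤ η / 16 * a := by
    have := mul_le_mul_of_nonneg_right hk.le ha0.le
    linarith
  have h4 : (8 / η + 5 * k) * (2 / X) ≤ η ^ 2 / 64 := by
    rw [mul_div_assoc', div_le_iff₀ hX0]
    linarith
  have h5 : η ^ 2 / 64 ≤ η / 16 * a := by nlinarith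
  have h6 : a ^ 2 ≤ η / 8 * a := by
    rw [mul_add] at h2
    linarith
  have h7 : a ≤ η / 8 := by
    have : a * a ≤ η / 8 * a := by rw [← sq]; exact h6
    exact le_of_mul_le_mul_right this ha0
  linarith

theorem almost (ι : Type) [Fintype ι] (a b : ι → ℤ) (o : ι) (ha : ∀ i, 0 < a i) (m : ℕ)
    (hm : 0 < m) (r : ℤ)
    (hadm : ∀ p : ℕ, p.Prime → ∃ n : ℤ, ∀ i, ¬ (p : ℤ) ∣ a i * (r + m * n) + b i)
    (θ ε η : ℝ) (hθ : 0 < θ) (hθ1 : θ ≤ 1) (hε : 0 < ε) (hη : 0 < η) (hη1 : η ≤ 1) :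
    ∃ (R : ℕ) (δ : ℝ), 0 < δ ∧ ∃ X₀ : ℝ, ∀ X : ℝ, X₀ ≤ X →
    ({N : ℕ | (N : ℝ) ≤ X ∧ ¬ ∀ s : ZMod 2, (N : ℝ) ^ (θ - ε) ≤
      ({n : ℕ | N < n ∧ (n : ℝ) ≤ N + (N : ℝ) ^ θ ∧ (m : ℤ) ∣ n - r ∧
        (∀ i, 0 < a i * n + b i ∧ ArithmeticFunction.cardFactors (a i * n + b i).natAbs ≤ R ∧
          ∀ p : ℕ, p.Prime → (p : ℤ) ∣ a i * n + b i → (N : ℝ) ^ δ < p) ∧
        ((ArithmeticFunction.cardFactors (a o * n + b o).natAbs : ℕ) : ZMod 2) =
          s}.ncard : ℝ)}.ncard : ℝ) ≤ η * X := by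
  classical
  set e : ℝ := min ε θ with he
  have he0 : 0 < e := lt_min hε hθ
  have heε : e ≤ ε := min_le_left _ _
  have heθ : e ≤ θ := min_le_right _ _
  obtain ⟨C0, hC0, FL⟩ := exists_FL1
  obtain ⟨C, hSV⟩ := exists_SVK (2 * Fintype.card ι + C0 + 1)
  set K : ℕ := 2 * Fintype.card ι + C0 + 1 with hK
  obtain ⟨W, n₀, hW, hWp, hWa, hmW, hn₀r, hn₀, -⟩ := exists_W ι a b ha K m hm r hadm
  obtain ⟨k, hk1, hk⟩ := exists_k η hη
  have hkr : (1 : ℝ) ≤ k := by exact_mod_cast hk1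
  set q : ℕ := (a o).toNat * W with hq
  have hqz : (q : ℤ) = a o * W := by
    rw [hq]
    push_cast
    rw [Int.toNat_of_nonneg (ha o).le]
  have hWq : W ∣ q := Dvd.intro_left _ rfl
  have hq0 : 0 < q := Nat.mul_pos (by have := ha o; omega) hW
  have hq2 : 2 ≤ q := Nat.le_of_dvd hq0 ((hWp 2 Nat.prime_two (by omega)).trans hWq)
  set κ : ℝ := e / (16 * k) with hκ
  have hκ0 : 0 < κ := by positivity
  have hκk : κ * k = e / 16 := by rw [hκ]; field_simp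
  set Qe : ℕ := ⌈4 / κ⌉₊ with hQe
  have hQe1 : 1 ≤ Qe := Nat.ceil_pos.2 (by positivity)
  have hQe4 : 4 ≤ κ * Qe := by
    have := Nat.le_ceil (4 / κ)
    rw [div_le_iff₀ hκ0] at this
    rw [mul_comm]
    exact this
  obtain ⟨δm, hδm, Nm, Ym, HM⟩ := mult C0 FL q Qe hq2 hQe1
    (fun p hp hpC => (hWp p hp (by omega)).trans hWq)
  set δ : ℝ := min (κ * δm / 2) (e / (16 * (C + 1))) with hδ
  have hC1 : (0 : ℝ) < 16 * (C + 1) := by positivity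
  have hδ0 : 0 < δ := lt_min (by positivity) (by positivity)
  have hδ1 : δ ≤ κ * δm / 2 := min_le_left _ _
  have hδ2 : δ * C ≤ e / 16 := by
    have h1 : δ ≤ e / (16 * (C + 1)) := min_le_right _ _
    calc δ * C ≤ δ * (C + 1) := by nlinarith
      _ ≤ e / (16 * (C + 1)) * (C + 1) := mul_le_mul_of_nonneg_right h1 (by positivity)
      _ = e / 16 := by field_simp
  obtain ⟨R, hR⟩ := exists_nat_ge (2 / δ)
  have hWr : (1 : ℝ) ≤ W := by exact_mod_cast hW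
  have hnn : ∀ i ∈ (Finset.univ : Finset ι), (0 : ℝ) ≤ 2 * (a i : ℝ) + |(b i : ℝ)| := by
    intro i _
    have : (0 : ℝ) < a i := by exact_mod_cast ha i
    positivity
  have hs0 : 0 ≤ ∑ i, (2 * (a i : ℝ) + |(b i : ℝ)|) := Finset.sum_nonneg hnn
  have v1 : ∀ᶠ x : ℝ in Filter.atTop, ((Nm + 2 : ℕ) : ℝ) ≤ x ^ (κ / 2) :=
    (tendsto_rpow_atTop (by linarith)).eventually_ge_atTop _
  have v2 : ∀ᶠ x : ℝ in Filter.atTop, ((max Ym 2 : ℕ) : ℝ) ≤ x ^ δ :=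
    (tendsto_rpow_atTop hδ0).eventually_ge_atTop _
  have v3 : ∀ᶠ x : ℝ in Filter.atTop,
      (4 + |(b o : ℝ)|) * 64 ^ k * W * 8 / η ≤ x ^ (3 * e / 8) :=
    (tendsto_rpow_atTop (by linarith)).eventually_ge_atTop _
  have v4 : ∀ᶠ x : ℝ in Filter.atTop, 8 / η ≤ x ^ θ :=
    (tendsto_rpow_atTop hθ).eventually_ge_atTop _
  have v5 : ∀ᶠ x : ℝ in Filter.atTop, (2 : ℝ) ^ (Qe + 1) + 128 * (8 / η + 5 * k) / η ^ 2 +
      4 * (10 + ∑ i, (2 * (a i : ℝ) + |(b i : ℝ)|)) / η ≤ x := Filter.eventually_ge_atTop _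
  obtain ⟨X₀, hX₀⟩ := Filter.eventually_atTop.mp (v1.and (v2.and (v3.and (v4.and v5))))
  refine ⟨R, δ, hδ0, X₀, ?_⟩
  intro X hX
  obtain ⟨w1, w2, w3, w4, w5⟩ := hX₀ X hX
  have p1 : 0 ≤ 128 * (8 / η + 5 * (k : ℝ)) / η ^ 2 := by positivity
  have p2 : (0 : ℝ) < 2 ^ (Qe + 1) := by positivity
  have p3 : 0 ≤ 4 * (10 + ∑ i, (2 * (a i : ℝ) + |(b i : ℝ)|)) / η := by positivity
  have hXQ : (2 : ℝ) ^ (Qe + 1) ≤ X := by linarith
  have hXb : 128 * (8 / η + 5 * (k : ℝ)) ≤ η ^ 2 * X := by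
    have : 128 * (8 / η + 5 * (k : ℝ)) / η ^ 2 ≤ X := by linarith
    rw [div_le_iff₀ (by positivity)] at this
    linarith
  have hXs : 10 + ∑ i, (2 * (a i : ℝ) + |(b i : ℝ)|) ≤ η * X / 4 := by
    have : 4 * (10 + ∑ i, (2 * (a i : ℝ) + |(b i : ℝ)|)) / η ≤ X := by linarith
    rw [div_le_iff₀ hη] at this
    linarith
  have hX40 : 40 ≤ X := by nlinarith
  have hX1 : 1 ≤ X := by linarith
  have hXp : 0 < X := by linarith
  have hxp : ∀ u : ℝ, 0 < X ^ u := fun u => Real.rpow_pos_of_pos hXp u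
  -- the scale of the rough numbers
  set Nv : ℕ := ⌊X ^ κ⌋₊ with hNv
  have hκκ : X ^ (κ / 2) * X ^ (κ / 2) = X ^ κ := by
    rw [← Real.rpow_add hXp]; congr 1; ring
  have hNm2 : (2 : ℝ) ≤ X ^ (κ / 2) := by
    refine le_trans ?_ w1
    push_cast
    have : (0 : ℝ) ≤ Nm := Nat.cast_nonneg _
    linarith
  have hNv1 : (Nv : ℝ) ≤ X ^ κ := Nat.floor_le (hxp _).le
  have hNv2 : X ^ κ < (Nv : ℝ) + 1 := Nat.lt_floor_add_one _
  have hNv3 : X ^ κ / 2 ≤ Nv := by nlinarith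
  have hNv4 : X ^ (κ / 2) ≤ Nv := by nlinarith
  have hNmN : Nm ≤ Nv := by
    have h1 : ((Nm + 2 : ℕ) : ℝ) ≤ Nv := w1.trans hNv4
    have h2 : Nm + 2 ≤ Nv := by exact_mod_cast h1
    omega
  have hNv0 : 1 ≤ Nv := by
    have h1 : ((Nm + 2 : ℕ) : ℝ) ≤ Nv := w1.trans hNv4
    have h2 : Nm + 2 ≤ Nv := by exact_mod_cast h1
    omega
  set Y : ℕ := ⌊X ^ δ⌋₊ with hY
  have hYle : (Y : ℝ) ≤ X ^ δ := Nat.floor_le (hxp _).le
  have hYlt : X ^ δ < (Y : ℝ) + 1 := Nat.lt_floor_add_one _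
  have hYmax : max Ym 2 ≤ Y := Nat.le_floor w2
  have hY2 : 2 ≤ Y := (le_max_right _ _).trans hYmax
  have hYN : (Y : ℝ) ≤ (Nv : ℝ) ^ δm := by
    calc (Y : ℝ) ≤ X ^ δ := hYle
      _ ≤ X ^ (κ / 2 * δm) := Real.rpow_le_rpow_of_exponent_le hX1 (by linarith)
      _ = (X ^ (κ / 2)) ^ δm := Real.rpow_mul hXp.le _ _
      _ ≤ (Nv : ℝ) ^ δm := Real.rpow_le_rpow (hxp _).le hNv4 hδm.le
  have hYC : (Y : ℝ) ^ C ≤ X ^ (e / 16) := by
    calc (Y : ℝ) ^ C ≤ (X ^ δ) ^ C := pow_le_pow_left₀ (Nat.cast_nonneg _) hYle C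
      _ = X ^ (δ * C) := by rw [← Real.rpow_natCast, ← Real.rpow_mul hXp.le]
      _ ≤ X ^ (e / 16) := Real.rpow_le_rpow_of_exponent_le hX1 hδ2
  obtain ⟨w, hw0, hw1, hl⟩ := HM Nv Y hNmN ((le_max_left _ _).trans hYmax) hYN
  have hT : X ^ 3 ≤ (Nv : ℝ) ^ Qe / 2 := by
    have g1 : (X ^ κ / 2) ^ Qe ≤ (Nv : ℝ) ^ Qe := pow_le_pow_left₀ (by positivity) hNv3 Qe
    have g2 : (X ^ κ / 2) ^ Qe = X ^ (κ * Qe) / 2 ^ Qe := by
      rw [div_pow, ← Real.rpow_natCast, ← Real.rpow_mul hXp.le]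
    have g3 : X ^ (4 : ℝ) ≤ X ^ (κ * Qe) := Real.rpow_le_rpow_of_exponent_le hX1 hQe4
    have g4 : X ^ (4 : ℝ) = X * X ^ 3 := by
      have : (4 : ℝ) = ((4 : ℕ) : ℝ) := by norm_num
      rw [this, Real.rpow_natCast]
      ring
    rw [g2] at g1
    have g5 : X * X ^ 3 / 2 ^ Qe ≤ (Nv : ℝ) ^ Qe := by
      refine le_trans ?_ g1
      rw [← g4]
      exact div_le_div_of_nonneg_right g3 (by positivity)
    rw [div_le_iff₀ (by positivity)] at g5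
    rw [pow_succ] at hXQ
    have g6 : (2 ^ Qe * 2) * X ^ 3 ≤ X * X ^ 3 := mul_le_mul_of_nonneg_right hXQ (by positivity)
    have g7 : (2 ^ Qe : ℝ) * (2 * X ^ 3) ≤ 2 ^ Qe * (Nv : ℝ) ^ Qe := by linarith
    have g8 := le_of_mul_le_mul_left g7 (by positivity)
    linarith
  -- the bad integers
  set Bad : ℕ → Prop := fun N => ¬ ∀ s : ZMod 2, (N : ℝ) ^ (θ - ε) ≤
      ({n : ℕ | N < n ∧ (n : ℝ) ≤ N + (N : ℝ) ^ θ ∧ (m : ℤ) ∣ n - r ∧
        (∀ i, 0 < a i * n + b i ∧ ArithmeticFunction.cardFactors (a i * n + b i).natAbs ≤ R ∧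
          ∀ p : ℕ, p.Prime → (p : ℤ) ∣ a i * n + b i → (N : ℝ) ^ δ < p) ∧
        ((ArithmeticFunction.cardFactors (a o * n + b o).natAbs : ℕ) : ZMod 2) =
          s}.ncard : ℝ) with hBad
  show ({N : ℕ | (N : ℝ) ≤ X ∧ Bad N}.ncard : ℝ) ≤ η * X
  by_contra hcon
  rw [not_le] at hcon
  set X₁ : ℕ := ⌈η * X / 4⌉₊ with hX₁
  have hX₁1 : η * X / 4 ≤ X₁ := Nat.le_ceil _
  have hX₁2 : (X₁ : ℝ) < η * X / 4 + 1 := Nat.ceil_lt_add_one (by positivity)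
  set X₂ : ℕ := ⌊X⌋₊ with hX₂
  have hX₂1 : (X₂ : ℝ) ≤ X := Nat.floor_le hXp.le
  set B : Finset ℕ := (Icc X₁ X₂).filter Bad with hB
  have hBcard : η / 2 * X ≤ (B.card : ℝ) := by
    have h1 : {N : ℕ | (N : ℝ) ≤ X ∧ Bad N} ⊆ ↑(B ∪ range X₁) := by
      rintro N ⟨g1, g2⟩
      rw [Finset.coe_union, Set.mem_union, Finset.mem_coe, Finset.mem_coe]
      by_cases hN : N < X₁
      · exact Or.inr (mem_range.2 hN)
      · exact Or.inl (mem_filter.2 ⟨mem_Icc.2 ⟨by omega, Nat.le_floor g1⟩, g2⟩)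
    have h2 := Set.ncard_le_ncard h1 (Finset.finite_toSet _)
    rw [Set.ncard_coe_finset] at h2
    have h3 := h2.trans (card_union_le B (range X₁))
    rw [card_range] at h3
    have h4 : ({N : ℕ | (N : ℝ) ≤ X ∧ Bad N}.ncard : ℝ) ≤ (B.card : ℝ) + X₁ := by exact_mod_cast h3
    have h5 : η * X < (B.card : ℝ) + X₁ := lt_of_lt_of_le hcon h4
    linarith
  have hX₁0 : (1 : ℝ) ≤ X₁ := by linarith
  have hX₁1' : 1 ≤ X₁ := by exact_mod_cast hX₁0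
  have hBle : (B.card : ℝ) ≤ X := by
    have h1 : B.card ≤ X₂ := by
      refine (card_filter_le _ _).trans ?_
      rw [Nat.card_Icc]
      omega
    have h2 : (B.card : ℝ) ≤ X₂ := by exact_mod_cast h1
    linarith
  -- the windows
  set E : ℕ := ⌊X ^ (θ - e / 2)⌋₊ with hE
  have hE1 : (E : ℝ) ≤ X ^ (θ - e / 2) := Nat.floor_le (hxp _).le
  have hE2 : X ^ (θ - e / 2) < (E : ℝ) + 1 := Nat.lt_floor_add_one _
  set Z : ℤ := ⌊(η * X / 4) ^ θ⌋ with hZ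
  have hZ1 : (Z : ℝ) ≤ (η * X / 4) ^ θ := Int.floor_le _
  have hZ2 : η / 8 * X ^ θ ≤ Z := by
    have g1 := Int.sub_one_lt_floor ((η * X / 4) ^ θ)
    rw [← hZ] at g1
    have g2 : (η * X / 4) ^ θ = (η / 4) ^ θ * X ^ θ := by
      rw [← Real.mul_rpow (by positivity) hXp.le]
      congr 1
      ring
    have g3 : η / 4 ≤ (η / 4) ^ θ := by
      calc η / 4 = (η / 4) ^ (1 : ℝ) := (Real.rpow_one _).symm
        _ ≤ (η / 4) ^ θ := Real.rpow_le_rpow_of_exponent_ge (by positivity) (by linarith) hθ1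
    have g4 : η / 4 * X ^ θ ≤ (η / 4) ^ θ * X ^ θ := mul_le_mul_of_nonneg_right g3 (hxp _).le
    have g5 : 1 ≤ η / 8 * X ^ θ := by
      rw [div_le_iff₀ hη] at w4
      linarith
    rw [g2] at g1
    linarith
  have hcst : ∀ N ∈ B, ∃ c : ZMod 2, Cst a b o Fpar W n₀ Y Z E (N : ℝ) c := by
    intro N hN
    obtain ⟨hN1, hN2⟩ := mem_filter.1 hN
    obtain ⟨hN3, hN4⟩ := mem_Icc.1 hN1
    have hN5 : η * X / 4 ≤ N := hX₁1.trans (by exact_mod_cast hN3)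
    have hN6 : (N : ℝ) ≤ X := (Nat.cast_le.2 hN4).trans hX₂1
    have hN7 : (1 : ℝ) ≤ N := by linarith
    have hN0 : (0 : ℝ) < N := by linarith
    simp only [hBad] at hN2
    push Not at hN2
    obtain ⟨s, hs⟩ := hN2
    refine ⟨s + 1, bad_cst a b o ha m r W n₀ hmW hn₀r Y Z E θ ε δ R hR hδ0 hθ1 N (by linarith)
      (fun i => ?_) (hZ1.trans (Real.rpow_le_rpow (by positivity) hN5 hθ.le))
      (lt_of_le_of_lt (Real.rpow_le_rpow hN0.le hN6 hδ0.le) hYlt) s (not_le.2 hs) ?_⟩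
    · have := Finset.single_le_sum hnn (Finset.mem_univ i)
      linarith
    · calc (N : ℝ) ^ (θ - ε) ≤ (N : ℝ) ^ (θ - e) :=
            Real.rpow_le_rpow_of_exponent_le hN7 (by linarith)
        _ ≤ X ^ (θ - e) := Real.rpow_le_rpow hN0.le hN6 (by linarith)
        _ ≤ X ^ (θ - e / 2) := Real.rpow_le_rpow_of_exponent_le hX1 (by linarith)
        _ ≤ (E : ℝ) + 1 := hE2.le
  choose! c hc using hcst
  have hPS := PS_props q Y Nv k
  have hfin := final (RV q Y Nv) Nv hNv0 (fun v hv => by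
      rw [RV, mem_filter, Om, mem_filter, mem_Ico] at hv
      exact hv.1.1) w hw0 hw1 (7 / 8) (X ^ 3) (by positivity)
      (fun ξ hξ => hl ξ (hξ.trans hT)) B X₁ X₂ hX₁1' (fun N hN => mem_Icc.1 (mem_filter.1 hN).1)
      (fun N => sgZ (c N)) (fun N _ => sgZ_abs _) k (by
    intro u V hV V' hV' hVB hVB'
    obtain ⟨g1, g2, g3⟩ := hPS V hV
    obtain ⟨g1', g2', g3'⟩ := hPS V' hV'
    have hV1 := PS_pos (RV q Y Nv) (fun v hv => by
      rw [RV, mem_filter, Om, mem_filter, mem_Ico] at hv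
      omega) k V hV
    have hV1' := PS_pos (RV q Y Nv) (fun v hv => by
      rw [RV, mem_filter, Om, mem_filter, mem_Ico] at hv
      omega) k V' hV'
    set x : ℕ := ⌊Real.exp u * V⌋₊ with hx
    set x' : ℕ := ⌊Real.exp u * V'⌋₊ with hx'
    have hVr : (1 : ℝ) ≤ V := by exact_mod_cast hV1
    have hVr' : (1 : ℝ) ≤ V' := by exact_mod_cast hV1'
    have hVle : ∀ v : ℕ, (v : ℝ) ≤ (64 * (Nv : ℝ)) ^ k → (v : ℝ) ≤ 64 ^ k * X ^ (e / 16) := by
      intro v hv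
      refine hv.trans ?_
      rw [mul_pow]
      refine mul_le_mul_of_nonneg_left ?_ (by positivity)
      calc (Nv : ℝ) ^ k ≤ (X ^ κ) ^ k := pow_le_pow_left₀ (Nat.cast_nonneg _) hNv1 k
        _ = X ^ (e / 16) := by
          rw [← Real.rpow_natCast, ← Real.rpow_mul hXp.le, hκk]
    obtain ⟨v, hv⟩ : ∃ v : ℤ, (V : ℤ) = 1 + a o * W * v := by
      have h1 : (q : ℤ) ∣ (V : ℤ) - 1 := by
        have := (Nat.modEq_iff_dvd.1 g1.symm)
        exact_mod_cast this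
      obtain ⟨v, hv⟩ := h1
      exact ⟨v, by rw [← hqz]; linarith⟩
    obtain ⟨v', hv'⟩ : ∃ v : ℤ, (V' : ℤ) = 1 + a o * W * v := by
      have h1 : (q : ℤ) ∣ (V' : ℤ) - 1 := by
        have := (Nat.modEq_iff_dvd.1 g1'.symm)
        exact_mod_cast this
      obtain ⟨v, hv⟩ := h1
      exact ⟨v, by rw [← hqz]; linarith⟩
    have hfl : ∀ v : ℕ, (1 : ℝ) ≤ v → Real.exp u / W - 1 ≤ ((⌊Real.exp u * v⌋₊ : ℕ) : ℝ) / (v * W) ∧
        ((⌊Real.exp u * v⌋₊ : ℕ) : ℝ) / (v * W) ≤ Real.exp u / W := by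
      intro v hv
      have hv0 : (0 : ℝ) < v := by linarith
      have hu := Real.exp_pos u
      have k1 := Nat.floor_le (a := Real.exp u * v) (by positivity)
      have k2 := Nat.lt_floor_add_one (Real.exp u * v)
      have hvW : (1 : ℝ) ≤ v * W := one_le_mul_of_one_le_of_one_le hv hWr
      constructor
      · rw [le_div_iff₀ (by positivity)]
        have e1 : (Real.exp u / W - 1) * (v * W) = Real.exp u * v - v * W := by
          field_simp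
        rw [e1]
        linarith
      · rw [div_le_div_iff₀ (by positivity) (by linarith)]
        nlinarith
    obtain ⟨f1, f2⟩ := hfl V hVr
    obtain ⟨f3, f4⟩ := hfl V' hVr'
    have hdist : |(x : ℝ) / (((V : ℤ) : ℝ) * W) - (x' : ℝ) / (((V' : ℤ) : ℝ) * W)| ≤ 1 := by
      have e1 : (((V : ℤ) : ℝ)) = (V : ℝ) := by norm_cast
      have e2 : (((V' : ℤ) : ℝ)) = (V' : ℝ) := by norm_cast
      rw [e1, e2, abs_le]
      constructor <;> linarith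
    have hcond : ∀ v : ℕ, (v : ℝ) ≤ (64 * (Nv : ℝ)) ^ k →
        (|(x : ℝ) / (((V : ℤ) : ℝ) * W) - (x' : ℝ) / (((V' : ℤ) : ℝ) * W)| + |(b o : ℝ)| +
          (Y : ℝ) ^ C * (2 * E + 1)) * (((v : ℤ) : ℝ) * W) ≤ Z := by
      intro v hv
      have e1 : (((v : ℤ) : ℝ)) = (v : ℝ) := by norm_cast
      rw [e1]
      refine le_trans ?_ (lk X θ e |(b o : ℝ)| W η (64 ^ k) v ((Y : ℝ) ^ C) E Z hX1 heθ he0
        (abs_nonneg _) hWr (hVle v hv) (Nat.cast_nonneg _) hYC hE1 (Nat.cast_nonneg _) hZ2 (by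
          rw [div_le_iff₀ hη] at w3
          linarith))
      refine mul_le_mul_of_nonneg_right ?_ (by positivity)
      linarith
    have hlink := Pool.Agent.W5h75.SR.link a b o W n₀ K C hSV (by omega) hW hWp hWa Y hY2 (ha o)
      hn₀ Fpar add2_Fpar Z E (x : ℝ) (x' : ℝ) (c x) (c x') (hc x hVB) (hc x' hVB') (V : ℤ) (V' : ℤ)
      v v' (by omega) (by omega) g2 g2' hv hv' (hcond V g3) (hcond V' g3')
    exact signs _ _ _ _ hlink)
  -- the measure of the bad set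
  have hterm : ∀ N ∈ B, 1 / (2 * X) ≤ Real.log ((N : ℝ) + 1) - Real.log (N : ℝ) := by
    intro N hN
    obtain ⟨hN3, hN4⟩ := mem_Icc.1 (mem_filter.1 hN).1
    have hN5 : (1 : ℝ) ≤ N := hX₁0.trans (by exact_mod_cast hN3)
    have hN0 : (0 : ℝ) < N := by linarith
    have hN6 : (N : ℝ) ≤ X := (Nat.cast_le.2 hN4).trans hX₂1
    rw [← Real.log_div (by linarith) hN0.ne']
    have h1 := Real.one_sub_inv_le_log_of_pos (by positivity : 0 < ((N : ℝ) + 1) / N)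
    have h2 : 1 - (((N : ℝ) + 1) / N)⁻¹ = 1 / ((N : ℝ) + 1) := by
      field_simp
      ring
    rw [h2] at h1
    refine le_trans ?_ h1
    exact one_div_le_one_div_of_le (by linarith) (by linarith)
  have hA : η / 4 ≤ ∑ N ∈ B, (Real.log ((N : ℝ) + 1) - Real.log (N : ℝ)) := by
    have h1 := sum_le_sum hterm
    rw [sum_const, nsmul_eq_mul] at h1
    refine le_trans ?_ h1
    rw [mul_one_div, le_div_iff₀ (by positivity)]
    linarith
  have hlen : Real.log ((X₂ : ℝ) + 1) - Real.log X₁ + k * Real.log 64 ≤ 8 / η + 5 * k := by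
    have hl64 : Real.log 64 ≤ 5 := by
      have : Real.log 64 = 6 * Real.log 2 := by
        rw [show (64 : ℝ) = 2 ^ 6 by norm_num, Real.log_pow]
        norm_num
      rw [this]
      have := Real.log_two_lt_d9
      linarith
    have h1 : Real.log ((X₂ : ℝ) + 1) - Real.log X₁ ≤ 8 / η := by
      rw [← Real.log_div (by positivity) (by linarith)]
      have h2 := Real.log_le_sub_one_of_pos (by positivity : 0 < ((X₂ : ℝ) + 1) / X₁)
      have h3 : ((X₂ : ℝ) + 1) / X₁ ≤ 8 / η := by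
        rw [div_le_div_iff₀ (by linarith) hη]
        nlinarith
      linarith
    have h4 : (k : ℝ) * Real.log 64 ≤ k * 5 := mul_le_mul_of_nonneg_left hl64 (Nat.cast_nonneg _)
    linarith
  exact contra η X ((7 / 8) ^ k) _ _ k hη hX1 hlen hk hA hXb (B.card : ℝ)
    (Nat.cast_nonneg _) hBle hfin

end Pool.Agent.W5h75.SU
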