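import Mathlib
import Pool.Agent.W5h75.SU.All

/-!
Parity of the number of prime factors of every member of a rough tuple, in all but few of the
intervals `(N, N + N ^ θ]`, `θ > 0`.
-/

set_option autoImplicit false

open Finset

namespace Pool.Agent.W5h75.SU

theorem almostAll (ι : Type) [Fintype ι] (a b : ι → ℤ) (ha : ∀ i, 0 < a i) (m : ℕ)
    (hm : 0 < m) (r : ℤ)
    (hadm : ∀ p : ℕ, p.Prime → ∃ n : ℤ, ∀ i, ¬ (p : ℤ) ∣ a i * (r + m * n) + b i)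
    (θ ε η : ℝ) (hθ : 0 < θ) (hθ1 : θ ≤ 1) (hε : 0 < ε) (hη : 0 < η) :
    ∃ (R : ℕ) (δ : ℝ), 0 < δ ∧ ∃ X₀ : ℝ, ∀ X : ℝ, X₀ ≤ X →
    ({N : ℕ | (N : ℝ) ≤ X ∧ ¬ ∀ (o : ι) (s : ZMod 2), (N : ℝ) ^ (θ - ε) ≤
      ({n : ℕ | N < n ∧ (n : ℝ) ≤ N + (N : ℝ) ^ θ ∧ (m : ℤ) ∣ n - r ∧
        (∀ i, 0 < a i * n + b i ∧ ArithmeticFunction.cardFactors (a i * n + b i).natAbs ≤ R ∧
          ∀ p : ℕ, p.Prime → (p : ℤ) ∣ a i * n + b i → (N : ℝ) ^ δ < p) ∧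
        ((ArithmeticFunction.cardFactors (a o * n + b o).natAbs : ℕ) : ZMod 2) =
          s}.ncard : ℝ)}.ncard : ℝ) ≤ η * X := by
  classical
  set η' : ℝ := min η 1 / (Fintype.card ι + 1) with hη'
  have hc0 : (0 : ℝ) < (Fintype.card ι : ℝ) + 1 := by positivity
  have hm0 : 0 < min η 1 := lt_min hη one_pos
  have hη'0 : 0 < η' := div_pos hm0 hc0
  have hη'1 : η' ≤ 1 := by
    rw [hη', div_le_one hc0]
    have h1 : min η 1 ≤ 1 := min_le_right _ _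
    have h2 : (0 : ℝ) ≤ (Fintype.card ι : ℝ) := Nat.cast_nonneg _
    linarith
  have key := fun o => almost ι a b o ha m hm r hadm θ ε η' hθ hθ1 hε hη'0 hη'1
  choose R δ hδ X₀ H using key
  obtain ⟨δ', hδ'0, hδ'⟩ : ∃ d : ℝ, 0 < d ∧ ∀ o, d ≤ δ o := by
    rcases isEmpty_or_nonempty ι with hE | hE
    · exact ⟨1, one_pos, fun o => hE.elim o⟩
    · obtain ⟨o₀, -, ho₀⟩ := Finset.exists_min_image (Finset.univ : Finset ι) δ
        Finset.univ_nonempty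
      exact ⟨δ o₀, hδ o₀, fun o => ho₀ o (mem_univ o)⟩
  obtain ⟨X₁, hX₁⟩ : ∃ d : ℝ, ∀ o, X₀ o ≤ d := by
    rcases isEmpty_or_nonempty ι with hE | hE
    · exact ⟨1, fun o => hE.elim o⟩
    · obtain ⟨o₀, -, ho₀⟩ := Finset.exists_max_image (Finset.univ : Finset ι) X₀
        Finset.univ_nonempty
      exact ⟨X₀ o₀, fun o => ho₀ o (mem_univ o)⟩
  refine ⟨Finset.univ.sup R, δ', hδ'0, max X₁ 1, ?_⟩
  intro X hX
  have hX1 : 1 ≤ X := (le_max_right _ _).trans hX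
  set Bad : ι → Set ℕ := fun o => {N : ℕ | (N : ℝ) ≤ X ∧ ¬ ∀ s : ZMod 2, (N : ℝ) ^ (θ - ε) ≤
      ({n : ℕ | N < n ∧ (n : ℝ) ≤ N + (N : ℝ) ^ θ ∧ (m : ℤ) ∣ n - r ∧
        (∀ i, 0 < a i * n + b i ∧ ArithmeticFunction.cardFactors (a i * n + b i).natAbs ≤ R o ∧
          ∀ p : ℕ, p.Prime → (p : ℤ) ∣ a i * n + b i → (N : ℝ) ^ (δ o) < p) ∧
        ((ArithmeticFunction.cardFactors (a o * n + b o).natAbs : ℕ) : ZMod 2) =
          s}.ncard : ℝ)} with hBad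
  have hfin : ∀ o, (Bad o).Finite := by
    intro o
    apply (Set.finite_Iic ⌊X⌋₊).subset
    intro N hN
    exact Nat.le_floor hN.1
  have hsub : {N : ℕ | (N : ℝ) ≤ X ∧ ¬ ∀ (o : ι) (s : ZMod 2), (N : ℝ) ^ (θ - ε) ≤
      ({n : ℕ | N < n ∧ (n : ℝ) ≤ N + (N : ℝ) ^ θ ∧ (m : ℤ) ∣ n - r ∧
        (∀ i, 0 < a i * n + b i ∧
          ArithmeticFunction.cardFactors (a i * n + b i).natAbs ≤ Finset.univ.sup R ∧
          ∀ p : ℕ, p.Prime → (p : ℤ) ∣ a i * n + b i → (N : ℝ) ^ δ' < p) ∧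
        ((ArithmeticFunction.cardFactors (a o * n + b o).natAbs : ℕ) : ZMod 2) =
          s}.ncard : ℝ)} ⊆ ↑(Finset.univ.biUnion (fun o => (hfin o).toFinset)) := by
    rintro N ⟨h1, h2⟩
    rw [Finset.mem_coe, mem_biUnion]
    by_contra hcon
    apply h2
    intro o s
    have h3 : N ∉ Bad o := fun h => hcon ⟨o, mem_univ o, (Set.Finite.mem_toFinset _).2 h⟩
    have h4 : ∀ s : ZMod 2, (N : ℝ) ^ (θ - ε) ≤
      ({n : ℕ | N < n ∧ (n : ℝ) ≤ N + (N : ℝ) ^ θ ∧ (m : ℤ) ∣ n - r ∧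
        (∀ i, 0 < a i * n + b i ∧ ArithmeticFunction.cardFactors (a i * n + b i).natAbs ≤ R o ∧
          ∀ p : ℕ, p.Prime → (p : ℤ) ∣ a i * n + b i → (N : ℝ) ^ (δ o) < p) ∧
        ((ArithmeticFunction.cardFactors (a o * n + b o).natAbs : ℕ) : ZMod 2) =
          s}.ncard : ℝ) := by
      by_contra h5
      exact h3 ⟨h1, h5⟩
    refine (h4 s).trans (Nat.cast_le.2 (Set.ncard_le_ncard ?_ ?_))
    · have hpow : (N : ℝ) ^ δ' ≤ (N : ℝ) ^ (δ o) := by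
        rcases Nat.eq_zero_or_pos N with h0 | h0
        · rw [h0, Nat.cast_zero, Real.zero_rpow hδ'0.ne', Real.zero_rpow (hδ o).ne']
        · exact Real.rpow_le_rpow_of_exponent_le (by exact_mod_cast h0) (hδ' o)
      rintro n ⟨k1, k2, k3, k4, k5⟩
      exact ⟨k1, k2, k3, fun i => ⟨(k4 i).1, (k4 i).2.1.trans (Finset.le_sup (mem_univ o)),
        fun p hp hpd => lt_of_le_of_lt hpow ((k4 i).2.2 p hp hpd)⟩, k5⟩
    · apply (Set.finite_Iic ⌊(N : ℝ) + (N : ℝ) ^ θ⌋₊).subset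
      intro n hn
      exact Nat.le_floor hn.2.1
  have h1 := (Set.ncard_le_ncard hsub (Finset.finite_toSet _))
  rw [Set.ncard_coe_finset] at h1
  have h2 : ∀ o ∈ (Finset.univ : Finset ι), (((hfin o).toFinset.card : ℕ) : ℝ) ≤ η' * X := by
    intro o _
    rw [← Set.ncard_eq_toFinset_card _ (hfin o)]
    exact H o X ((hX₁ o).trans ((le_max_left _ _).trans hX))
  have h3 : ((Finset.univ.biUnion (fun o => (hfin o).toFinset)).card : ℝ) ≤
      (Fintype.card ι : ℝ) * (η' * X) := by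
    have g1 : ((Finset.univ.biUnion (fun o => (hfin o).toFinset)).card : ℝ) ≤
        ∑ o : ι, (((hfin o).toFinset.card : ℕ) : ℝ) := by
      exact_mod_cast card_biUnion_le
    refine g1.trans ((sum_le_sum h2).trans ?_)
    rw [sum_const, nsmul_eq_mul, card_univ]
  have h4 : (Fintype.card ι : ℝ) * (η' * X) ≤ η * X := by
    have g1 : (Fintype.card ι : ℝ) * η' ≤ η := by
      rw [hη', mul_div_assoc', div_le_iff₀ hc0]
      have g2 : min η 1 ≤ η := min_le_left _ _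
      have g3 : (0 : ℝ) ≤ (Fintype.card ι : ℝ) := Nat.cast_nonneg _
      nlinarith
    calc (Fintype.card ι : ℝ) * (η' * X) = ((Fintype.card ι : ℝ) * η') * X := by ring
      _ ≤ η * X := mul_le_mul_of_nonneg_right g1 (by linarith)
  have h5 : ({N : ℕ | (N : ℝ) ≤ X ∧ ¬ ∀ (o : ι) (s : ZMod 2), (N : ℝ) ^ (θ - ε) ≤
      ({n : ℕ | N < n ∧ (n : ℝ) ≤ N + (N : ℝ) ^ θ ∧ (m : ℤ) ∣ n - r ∧
        (∀ i, 0 < a i * n + b i ∧
          ArithmeticFunction.cardFactors (a i * n + b i).natAbs ≤ Finset.univ.sup R ∧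
          ∀ p : ℕ, p.Prime → (p : ℤ) ∣ a i * n + b i → (N : ℝ) ^ δ' < p) ∧
        ((ArithmeticFunction.cardFactors (a o * n + b o).natAbs : ℕ) : ZMod 2) =
          s}.ncard : ℝ)}.ncard : ℝ) ≤
      ((Finset.univ.biUnion (fun o => (hfin o).toFinset)).card : ℝ) := by exact_mod_cast h1
  linarith

end Pool.Agent.W5h75.SU
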